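import Pool.Agent.Helper92.OV6.Ln

/-!
# Project OV6 (MP_fb29e9_nt): the sixth derivative test for the octant, general phases

`oct6g`: `‖os (oct K) K i W φ R c‖ ≤ C K² (R / K⁵)^(1/62)` for `R^(1/5) ≤ K ≤ R^(16/49)`. The octant is cut into classes of slopes; in a class the lines
`k = (x, e + m x)` are used, with `m` in `{2, ..., 6}` chosen such that the sixth derivative of the phase on the lines is of size `R / K⁵`.
-/

set_option autoImplicit false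

namespace Pool.Agent.Helper92.OV6

open Finset
open Pool.Agent.Helper46.BF (ee_eq)
open Pool.Agent.Helper76.OV (Cw sl os)
open Pool.Agent.Helper92.GC (oct dt)

theorem mem_oct6 {K : ℕ} {k : ℤ × ℤ} : k ∈ oct K ↔ (K : ℤ) ≤ k.1 ∧ k.1 < 2 * K ∧ 0 ≤ k.2 ∧ k.2 ≤ k.1 := by
  unfold oct Pool.Agent.Helper22.AE.box
  simp only [mem_filter, mem_product, mem_Icc]
  push_cast
  constructor
  · rintro ⟨_, h⟩
    exact h
  · intro h
    refine ⟨⟨⟨?_, ?_⟩, ?_, ?_⟩, h⟩ <;> omega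

/-- the trivial bound -/
theorem os_triv {K i : ℕ} {B R : ℝ} {W : ℝ → ℂ} {φ : ℝ → ℝ} (hB : 0 ≤ B) (hW : ∀ x, ‖W x‖ ≤ B) (hK : 1 ≤ K) (c : ℝ × ℝ) :
    ‖os (oct K) K i W φ R c‖ ≤ 25 * B * (K : ℝ) ^ 2 := by
  have hK0 : (0 : ℝ) < K := by exact_mod_cast hK
  unfold os
  refine (norm_sum_le _ _).trans ?_
  refine (Finset.sum_le_card_nsmul _ _ B fun k hk => ?_).trans ?_
  · have h1 := (mem_oct6.1 hk).1
    have h2 : (K : ℝ) ≤ (k.1 : ℝ) := by exact_mod_cast h1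
    have h3 : (0 : ℝ) < (k.1 : ℝ) := by linarith
    rw [norm_mul, ee_eq, Pool.Agent.Helper22.GC.norm_ee, mul_one, norm_mul, norm_pow, Complex.norm_real, Real.norm_eq_abs, abs_of_nonneg (by positivity)]
    have h4 : ((K : ℝ) / (k.1 : ℝ)) ^ i ≤ 1 := pow_le_one₀ (by positivity) ((div_le_one h3).2 h2)
    calc ((K : ℝ) / (k.1 : ℝ)) ^ i * ‖W (sl k)‖ ≤ 1 * B := mul_le_mul h4 (hW _) (norm_nonneg _) zero_le_one
      _ = B := one_mul B
  · rw [nsmul_eq_mul]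
    have h1 : (oct K).card ≤ (Pool.Agent.Helper22.AE.box (2 * K)).card := Finset.card_le_card (Finset.filter_subset _ _)
    have h2 : (Pool.Agent.Helper22.AE.box (2 * K)).card = (4 * K + 1) * (4 * K + 1) := by
      unfold Pool.Agent.Helper22.AE.box
      rw [Finset.card_product, Int.card_Icc]
      have : ((2 * K : ℕ) : ℤ) + 1 - -((2 * K : ℕ) : ℤ) = ((4 * K + 1 : ℕ) : ℤ) := by
        push_cast
        ring
      rw [this, Int.toNat_natCast]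
    have h3 : (4 * K + 1) * (4 * K + 1) ≤ (5 * K) * (5 * K) :=
      Nat.mul_le_mul (by omega) (by omega)
    have h4 : (oct K).card ≤ 25 * K ^ 2 := by
      calc (oct K).card ≤ (5 * K) * (5 * K) := (h1.trans h2.le).trans h3
        _ = 25 * K ^ 2 := by ring
    have h5 : ((oct K).card : ℝ) ≤ 25 * (K : ℝ) ^ 2 := by exact_mod_cast h4
    calc ((oct K).card : ℝ) * B ≤ 25 * (K : ℝ) ^ 2 * B := mul_le_mul_of_nonneg_right h5 hB
      _ = 25 * B * (K : ℝ) ^ 2 := by ring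

/-- the points of the line in the class `j` -/
noncomputable def SS (K N j m : ℕ) (e : ℤ) : Finset ℕ :=
  (Ico K (2 * K)).filter fun x => 0 ≤ e + m * (x : ℤ) ∧ e + m * (x : ℤ) ≤ x ∧ ⌊(N : ℝ) * ((m : ℝ) + (e : ℝ) / x)⌋₊ = j

theorem SS_conv {K N j m : ℕ} {e : ℤ} (_hK : 1 ≤ K) (hm : 2 ≤ m) :
    ∀ x ∈ SS K N j m e, ∀ z ∈ SS K N j m e, ∀ y, x ≤ y → y ≤ z → y ∈ SS K N j m e := by
  intro x hx z hz y hxy hyz
  unfold SS at hx hz ⊢
  rw [mem_filter, mem_Ico] at hx hz ⊢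
  obtain ⟨⟨hx1, hx2⟩, hx3, hx4, hx5⟩ := hx
  obtain ⟨⟨hz1, hz2⟩, hz3, hz4, hz5⟩ := hz
  have hx0 : (0 : ℝ) < x := by exact_mod_cast (by omega : 0 < x)
  have hy0 : (0 : ℝ) < y := by exact_mod_cast (by omega : 0 < y)
  have hz0 : (0 : ℝ) < z := by exact_mod_cast (by omega : 0 < z)
  have hxy' : (x : ℝ) ≤ y := by exact_mod_cast hxy
  have hyz' : (y : ℝ) ≤ z := by exact_mod_cast hyz
  have hmz : (2 : ℤ) ≤ m := by exact_mod_cast hm
  have hxyz : (x : ℤ) ≤ y := by exact_mod_cast hxy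
  have hyzz : (y : ℤ) ≤ z := by exact_mod_cast hyz
  have hzz : (1 : ℤ) ≤ z := by exact_mod_cast (by omega : 1 ≤ z)
  have he : e ≤ 0 := by nlinarith
  have he' : (e : ℝ) ≤ 0 := by exact_mod_cast he
  have d : ∀ p q : ℝ, 0 < p → p ≤ q → (m : ℝ) + e / p ≤ m + e / q := by
    intro p q hp hpq
    have hq : 0 < q := by linarith
    have h1 : (e : ℝ) / p ≤ e / q := by
      rw [div_le_div_iff₀ hp hq]
      nlinarith
    linarith
  refine ⟨⟨by omega, by omega⟩, ?_, ?_, ?_⟩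
  · nlinarith
  · nlinarith
  · apply le_antisymm
    · rw [← hz5]
      exact Nat.floor_mono (mul_le_mul_of_nonneg_left (d y z hy0 hyz') (Nat.cast_nonneg N))
    · rw [← hx5]
      exact Nat.floor_mono (mul_le_mul_of_nonneg_left (d x y hx0 hxy') (Nat.cast_nonneg N))

theorem SS_slope {K N j m : ℕ} {e : ℤ} (_hK : 1 ≤ K) (hN : 1 ≤ N) : ∀ x ∈ SS K N j m e, |(m : ℝ) + (e : ℝ) / x - (j : ℝ) / N| ≤ 1 / N := by
  intro x hx
  unfold SS at hx
  rw [mem_filter, mem_Ico] at hx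
  obtain ⟨⟨hx1, hx2⟩, hx3, hx4, hx5⟩ := hx
  have hx0 : (0 : ℝ) < x := by exact_mod_cast (by omega : 0 < x)
  have hN0 : (0 : ℝ) < N := by exact_mod_cast hN
  have h1 : 0 ≤ (m : ℝ) + (e : ℝ) / x := by
    have h2 : (m : ℝ) + (e : ℝ) / x = ((e + m * (x : ℤ) : ℤ) : ℝ) / x := by
      push_cast
      field_simp
      ring
    rw [h2]
    have h3 : (0 : ℝ) ≤ ((e + m * (x : ℤ) : ℤ) : ℝ) := by exact_mod_cast hx3
    positivity
  have h2 := Nat.floor_le (mul_nonneg hN0.le h1)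
  have h3 := Nat.lt_floor_add_one ((N : ℝ) * ((m : ℝ) + (e : ℝ) / x))
  rw [hx5] at h2 h3
  have e1 : (m : ℝ) + (e : ℝ) / x - (j : ℝ) / N = ((N : ℝ) * ((m : ℝ) + (e : ℝ) / x) - j) / N := by
    field_simp
  rw [e1, abs_div, abs_of_pos hN0]
  refine div_le_div_of_nonneg_right ?_ hN0.le
  rw [abs_le]
  constructor <;> linarith

/-- the sum over the octant as a sum over classes and lines -/
theorem os_split {K N i : ℕ} (_hK : 1 ≤ K) (mm : ℕ → ℕ) (hmm : ∀ j, j ≤ N → 2 ≤ mm j ∧ mm j ≤ 6) (W : ℝ → ℂ) (φ : ℝ → ℝ) (R : ℝ) (c : ℝ × ℝ) :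
    os (oct K) K i W φ R c = ∑ p ∈ range (N + 1) ×ˢ Icc (-(12 * K : ℤ)) 0,
      ∑ x ∈ SS K N p.1 (mm p.1) p.2, tl K i W φ R (mm p.1) p.2 (c.1 + (mm p.1) * c.2) (p.2 * c.2) x := by
  classical
  set g : ℤ × ℤ → ℕ × ℤ := fun k => (⌊(N : ℝ) * sl k⌋₊, k.2 - (mm ⌊(N : ℝ) * sl k⌋₊ : ℤ) * k.1) with hg
  have hcls : ∀ k ∈ oct K, ⌊(N : ℝ) * sl k⌋₊ ≤ N := by
    intro k hk
    obtain ⟨h1, h2, h3, h4⟩ := mem_oct6.1 hk
    have h5 : (0 : ℝ) < (k.1 : ℝ) := by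
      have : (0 : ℤ) < k.1 := by omega
      exact_mod_cast this
    have h6 : sl k ≤ 1 := by
      unfold sl
      rw [div_le_one h5]
      exact_mod_cast h4
    have h7 : (N : ℝ) * sl k ≤ N := by nlinarith
    have h8 := Nat.floor_mono h7
    rwa [Nat.floor_natCast] at h8
  have hmaps : ∀ k ∈ oct K, g k ∈ range (N + 1) ×ˢ Icc (-(12 * K : ℤ)) 0 := by
    intro k hk
    obtain ⟨h1, h2, h3, h4⟩ := mem_oct6.1 hk
    have h5 := hcls k hk
    obtain ⟨h6, h7⟩ := hmm _ h5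
    rw [mem_product, mem_range, mem_Icc]
    have h6' : (2 : ℤ) ≤ (mm ⌊(N : ℝ) * sl k⌋₊ : ℤ) := by exact_mod_cast h6
    have h7' : (mm ⌊(N : ℝ) * sl k⌋₊ : ℤ) ≤ 6 := by exact_mod_cast h7
    refine ⟨by simp only [hg]; omega, ?_, ?_⟩
    · simp only [hg]
      nlinarith
    · simp only [hg]
      nlinarith
  unfold os
  rw [← sum_fiberwise_of_maps_to hmaps]
  refine sum_congr rfl fun p hp => ?_
  rw [mem_product, mem_range] at hp
  obtain ⟨hm1, hm2⟩ := hmm p.1 (by omega)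
  have hm1' : (2 : ℤ) ≤ (mm p.1 : ℤ) := by exact_mod_cast hm1
  symm
  refine sum_nbij' (fun x : ℕ => ((x : ℤ), p.2 + (mm p.1 : ℤ) * (x : ℤ))) (fun k : ℤ × ℤ => k.1.toNat) ?_ ?_ ?_ ?_ ?_
  · intro x hx
    unfold SS at hx
    rw [mem_filter, mem_Ico] at hx
    obtain ⟨⟨hx1, hx2⟩, hx3, hx4, hx5⟩ := hx
    have hx0 : (0 : ℝ) < x := by exact_mod_cast (by omega : 0 < x)
    have e1 : sl ((x : ℤ), p.2 + (mm p.1 : ℤ) * (x : ℤ)) = (mm p.1 : ℝ) + (p.2 : ℝ) / x := by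
      unfold sl
      push_cast
      field_simp
      ring
    rw [mem_filter]
    refine ⟨mem_oct6.2 ⟨by simp only; omega, by simp only; omega, hx3, hx4⟩, ?_⟩
    simp only [hg]
    rw [e1, hx5]
    ext
    · rfl
    · simp
  · intro k hk
    rw [mem_filter] at hk
    obtain ⟨hk1, hk2⟩ := hk
    obtain ⟨h1, h2, h3, h4⟩ := mem_oct6.1 hk1
    have e1 : ⌊(N : ℝ) * sl k⌋₊ = p.1 := congrArg Prod.fst hk2
    have e2 : k.2 - (mm ⌊(N : ℝ) * sl k⌋₊ : ℤ) * k.1 = p.2 := congrArg Prod.snd hk2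
    rw [e1] at e2
    have e3 : ((k.1.toNat : ℕ) : ℤ) = k.1 := Int.toNat_of_nonneg (by omega)
    have e3' : ((k.1.toNat : ℕ) : ℝ) = (k.1 : ℝ) := by exact_mod_cast e3
    have h5 : (0 : ℝ) < (k.1 : ℝ) := by
      have : (0 : ℤ) < k.1 := by omega
      exact_mod_cast this
    unfold SS
    rw [mem_filter, mem_Ico, e3, e3']
    refine ⟨⟨by omega, by omega⟩, by linarith, by linarith, ?_⟩
    rw [← e1]
    have e4 : sl k = (mm ⌊(N : ℝ) * sl k⌋₊ : ℝ) + (p.2 : ℝ) / (k.1 : ℝ) := by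
      rw [← e2, e1]
      unfold sl
      push_cast
      field_simp
      ring
    rw [e1] at e4 ⊢
    rw [← e4, e1]
  · intro x _
    simp
  · intro k hk
    rw [mem_filter] at hk
    obtain ⟨hk1, hk2⟩ := hk
    obtain ⟨h1, h2, h3, h4⟩ := mem_oct6.1 hk1
    have e1 : ⌊(N : ℝ) * sl k⌋₊ = p.1 := congrArg Prod.fst hk2
    have e2 : k.2 - (mm ⌊(N : ℝ) * sl k⌋₊ : ℤ) * k.1 = p.2 := congrArg Prod.snd hk2
    rw [e1] at e2
    have e3 : ((k.1.toNat : ℕ) : ℤ) = k.1 := Int.toNat_of_nonneg (by omega)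
    simp only [e3]
    ext
    · rfl
    · simp only
      linarith
  · intro x hx
    unfold SS at hx
    rw [mem_filter, mem_Ico] at hx
    obtain ⟨⟨hx1, hx2⟩, hx3, hx4, hx5⟩ := hx
    have hx0 : (0 : ℝ) < x := by exact_mod_cast (by omega : 0 < x)
    have e1 : sl ((x : ℤ), p.2 + (mm p.1 : ℤ) * (x : ℤ)) = (mm p.1 : ℝ) + (p.2 : ℝ) / x := by
      unfold sl
      push_cast
      field_simp
      ring
    rw [e1]
    unfold tl dt
    simp only [Int.cast_natCast]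
    congr 2
    push_cast
    ring

/-- **The sixth derivative test for the octant**, general phases and weights. -/
theorem oct6g {c₁ B δ : ℝ} (hc : 0 < c₁) (hB : 1 ≤ B) (hδ : 0 < δ) : ∃ C : ℝ, 0 < C ∧
    ∀ φ : ℝ → ℝ, C6 c₁ B δ φ → ∀ W : ℝ → ℂ, Cw B W → ∀ (R : ℝ) (K : ℕ), 1 ≤ R → 1 ≤ K → R ≤ (K : ℝ) ^ 5 →
    (K : ℝ) ^ 49 ≤ R ^ 16 → ∀ i : ℕ, i ≤ 2 → ∀ c : ℝ × ℝ,
      ‖os (oct K) K i W φ R c‖ ≤ C * ((K : ℝ) ^ 2 * (R / (K : ℝ) ^ 5) ^ (1 / 62 : ℝ)) := by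
  obtain ⟨C, N, K₀, hC, hN, hK₀, hl⟩ := lineW hc hB hδ
  have hN0 : (0 : ℝ) < N := by exact_mod_cast hN
  have hK₀0 : (0 : ℝ) < K₀ := by exact_mod_cast hK₀
  refine ⟨13 * ((N : ℝ) + 1) * C + 25 * B * K₀, by positivity, ?_⟩
  intro φ hφ W hW R K hR hK hRK hKR i hi c
  have hK0 : (0 : ℝ) < K := by exact_mod_cast hK
  have hR0 : (0 : ℝ) < R := by linarith
  set y : ℝ := (R / (K : ℝ) ^ 5) ^ (1 / 62 : ℝ) with hy
  have hy0 : 0 < y := Real.rpow_pos_of_pos (by positivity) _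
  rcases Nat.lt_or_ge K K₀ with hsm | hbig
  · have h1 := os_triv (R := R) (φ := φ) (i := i) (by linarith : 0 ≤ B) hW.wb hK c
    have h2 : (1 : ℝ) / K₀ ≤ y := by
      have h4 : ((1 / (K₀ : ℝ)) ^ 62) ≤ R / (K : ℝ) ^ 5 := by
        rw [le_div_iff₀ (by positivity)]
        have h5 : (K : ℝ) ≤ K₀ := by exact_mod_cast hsm.le
        have h6 := pow_le_pow_left₀ hK0.le h5 5
        have h7 : (1 : ℝ) ≤ K₀ := by exact_mod_cast hK₀
        calc (1 / (K₀ : ℝ)) ^ 62 * (K : ℝ) ^ 5 ≤ (1 / (K₀ : ℝ)) ^ 62 * (K₀ : ℝ) ^ 5 := mul_le_mul_of_nonneg_left h6 (by positivity)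
          _ = 1 / (K₀ : ℝ) ^ 57 := by field_simp
          _ ≤ 1 := by
            rw [div_le_one (by positivity)]
            exact one_le_pow₀ h7
          _ ≤ R := hR
      have h5 := Real.rpow_le_rpow (by positivity) h4 (show (0 : ℝ) ≤ 1 / 62 by norm_num)
      have h6 : ((1 / (K₀ : ℝ)) ^ 62) ^ (1 / 62 : ℝ) = 1 / K₀ := by
        rw [← Real.rpow_natCast, ← Real.rpow_mul (by positivity)]
        norm_num
      rw [h6] at h5
      exact h5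
    have h3 : 1 ≤ K₀ * y := by
      rw [div_le_iff₀ hK₀0] at h2
      linarith
    calc ‖os (oct K) K i W φ R c‖ ≤ 25 * B * (K : ℝ) ^ 2 := h1
      _ = 25 * B * (K : ℝ) ^ 2 * 1 := by ring
      _ ≤ 25 * B * (K : ℝ) ^ 2 * (K₀ * y) := mul_le_mul_of_nonneg_left h3 (by positivity)
      _ = 25 * B * K₀ * ((K : ℝ) ^ 2 * y) := by ring
      _ ≤ (13 * ((N : ℝ) + 1) * C + 25 * B * K₀) * ((K : ℝ) ^ 2 * y) := by
        refine mul_le_mul_of_nonneg_right ?_ (by positivity)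
        have : 0 ≤ 13 * ((N : ℝ) + 1) * C := by positivity
        linarith
  · -- the choice of the directions
    have hch : ∀ j : ℕ, ∃ m : ℕ, 2 ≤ m ∧ m ≤ 6 ∧ (j ≤ N → 2 / 5 * c₁ ≤ |TT φ m ((j : ℝ) / N)|) := by
      intro j
      by_cases hj : j ≤ N
      · have h1 : 0 ≤ (j : ℝ) / N := by positivity
        have h2 : (j : ℝ) / N ≤ 1 := by
          rw [div_le_one hN0]
          exact_mod_cast hj
        obtain ⟨m, a1, a2, a3⟩ := TT_large (φ := φ) hc h1 h2 (hφ.lo _ (abs_le.2 ⟨by linarith, by linarith⟩))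
        exact ⟨m, a1, a2, fun _ => a3⟩
      · exact ⟨2, le_rfl, by norm_num, fun h => absurd h hj⟩
    choose mm hmm1 hmm2 hmm3 using hch
    rw [os_split (N := N) hK mm (fun j _ => ⟨hmm1 j, hmm2 j⟩) W φ R c]
    refine (norm_sum_le _ _).trans ?_
    refine (Finset.sum_le_card_nsmul _ _ (C * (K * y)) fun p hp => ?_).trans ?_
    · rw [mem_product, mem_range, mem_Icc] at hp
      obtain ⟨hp1, hp2, hp3⟩ := hp
      have hpN : p.1 ≤ N := by omega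
      refine hl φ hφ W hW K R hbig hR hRK hKR i hi p.1 hpN (mm p.1) (hmm1 _) (hmm2 _) (hmm3 _ hpN) p.2 _ _ ?_ _
        (filter_subset _ _) (SS_conv hK (hmm1 _)) (SS_slope hK hN)
      have h1 : (-(12 * (K : ℝ))) ≤ (p.2 : ℝ) := by exact_mod_cast hp2
      have h2 : (p.2 : ℝ) ≤ 0 := by exact_mod_cast hp3
      exact abs_le.2 ⟨by linarith, by linarith⟩
    · rw [nsmul_eq_mul, card_product, card_range, Int.card_Icc]
      have e1 : (0 : ℤ) + 1 - -(12 * (K : ℤ)) = ((12 * K + 1 : ℕ) : ℤ) := by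
        push_cast
        ring
      rw [e1, Int.toNat_natCast]
      have hK1 : (1 : ℝ) ≤ K := by exact_mod_cast hK
      have h2 : (((N + 1) * (12 * K + 1) : ℕ) : ℝ) ≤ 13 * ((N : ℝ) + 1) * K := by
        push_cast
        nlinarith
      calc (((N + 1) * (12 * K + 1) : ℕ) : ℝ) * (C * (K * y)) ≤ 13 * ((N : ℝ) + 1) * K * (C * (K * y)) :=
            mul_le_mul_of_nonneg_right h2 (by positivity)
        _ = 13 * ((N : ℝ) + 1) * C * ((K : ℝ) ^ 2 * y) := by ring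
        _ ≤ (13 * ((N : ℝ) + 1) * C + 25 * B * K₀) * ((K : ℝ) ^ 2 * y) := by
          refine mul_le_mul_of_nonneg_right ?_ (by positivity)
          have : 0 ≤ 25 * B * K₀ := by positivity
          linarith

end Pool.Agent.Helper92.OV6
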