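import Pool.Agent.Helper92.OV6.Line

/-!
# Project OV6 (MP_fb29e9_nt): the phase on a line

On the line `k = (x, e + m x)` the slope is `s = m + e/x` and the phase is `R x φ(s) + linear`. With `E_j = (e/x)^j φ^(j)(s)`, `E_j' = -(j E_j + E_(j+1))/x`, the sixth
derivative is `R (360 E_2 + 480 E_3 + 180 E_4 + 24 E_5 + E_6)/x⁵ = R TT φ m s / x⁵`, `TT φ m s = Σ c_j (s - m)^j φ^(j)(s)`.
`TT_large`: for `s` in `[0, 1]` there is `m` in `{2, ..., 6}` with `|TT φ m s| ≥ (2/5) φ''(s)` (interpolation of a polynomial of degree 4 at the 5 points `s - m`).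
-/

set_option autoImplicit false

namespace Pool.Agent.Helper92.OV6

open Finset
open Pool.Agent.Helper46.BF (Sm Dif Cnd)

/-- the conditions on the phase -/
structure C6 (c₁ B δ : ℝ) (φ : ℝ → ℝ) : Prop where
  sm : ContDiff ℝ 6 φ
  lo : ∀ x, |x| ≤ 2 → c₁ ≤ iteratedDeriv 2 φ x
  hi : ∀ n, 2 ≤ n → n ≤ 6 → ∀ x, |x| ≤ 2 → |iteratedDeriv n φ x| ≤ B
  md : ∀ x y, |x| ≤ 2 → |y| ≤ 2 → |x - y| ≤ δ → |iteratedDeriv 6 φ x - iteratedDeriv 6 φ y| ≤ c₁ / 10 ^ 7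

/-- the main term of the sixth derivative -/
noncomputable def TT (φ : ℝ → ℝ) (m s : ℝ) : ℝ :=
  360 * (s - m) ^ 2 * iteratedDeriv 2 φ s + 480 * (s - m) ^ 3 * iteratedDeriv 3 φ s +
    180 * (s - m) ^ 4 * iteratedDeriv 4 φ s + 24 * (s - m) ^ 5 * iteratedDeriv 5 φ s + (s - m) ^ 6 * iteratedDeriv 6 φ s

theorem id_deriv {φ : ℝ → ℝ} (h : ContDiff ℝ 6 φ) {j : ℕ} (hj : j < 6) (x : ℝ) :
    HasDerivAt (iteratedDeriv j φ) (iteratedDeriv (j + 1) φ x) x := by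
  have h1 : Differentiable ℝ (iteratedDeriv j φ) := h.differentiable_iteratedDeriv j (by exact_mod_cast hj)
  rw [iteratedDeriv_succ]
  exact (h1 x).hasDerivAt

/-- `(e/x)^j φ^(j)(m + e/x)` -/
noncomputable def EE (φ : ℝ → ℝ) (m e : ℝ) (j : ℕ) (x : ℝ) : ℝ := (e / x) ^ j * iteratedDeriv j φ (m + e / x)

theorem EE_deriv {φ : ℝ → ℝ} (h : ContDiff ℝ 6 φ) (m e : ℝ) {j : ℕ} (hj : j < 6) {x : ℝ} (hx : 0 < x) :
    HasDerivAt (EE φ m e j) (-((j : ℝ) * EE φ m e j x + EE φ m e (j + 1) x) / x) x := by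
  have h1 : HasDerivAt (fun x : ℝ => e / x) (-(e / x) / x) x := by
    have h2 := (hasDerivAt_inv hx.ne').const_mul e
    refine (h2.congr_of_eventuallyEq ?_).congr_deriv ?_
    · exact Filter.Eventually.of_forall fun y => by simp [div_eq_mul_inv]
    · field_simp
  have h2 := (id_deriv h hj (m + e / x)).comp x (h1.const_add m)
  have h3 := (h1.fun_pow j).mul h2
  refine h3.congr_deriv ?_
  unfold EE
  rcases Nat.eq_zero_or_pos j with h0 | h0
  · subst h0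
    simp only [Function.comp]
    push_cast
    field_simp
    ring
  · obtain ⟨n, rfl⟩ : ∃ n, j = n + 1 := ⟨j - 1, by omega⟩
    simp only [Function.comp, Nat.add_sub_cancel]
    rw [pow_succ (e / x) (n + 1), pow_succ (e / x) n]
    field_simp
    ring

/-- the derivatives of the phase -/
noncomputable def GG (φ : ℝ → ℝ) (m e R α β : ℝ) : ℕ → ℝ → ℝ
  | 0 => fun x => R * (x * EE φ m e 0 x) + (α * x + β)
  | 1 => fun x => R * (EE φ m e 0 x - EE φ m e 1 x) + α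
  | 2 => fun x => R * EE φ m e 2 x / x
  | 3 => fun x => -(R * (3 * EE φ m e 2 x + EE φ m e 3 x)) / x ^ 2
  | 4 => fun x => R * (12 * EE φ m e 2 x + 8 * EE φ m e 3 x + EE φ m e 4 x) / x ^ 3
  | 5 => fun x => -(R * (60 * EE φ m e 2 x + 60 * EE φ m e 3 x + 15 * EE φ m e 4 x + EE φ m e 5 x)) / x ^ 4
  | 6 => fun x => R * (360 * EE φ m e 2 x + 480 * EE φ m e 3 x + 180 * EE φ m e 4 x + 24 * EE φ m e 5 x + EE φ m e 6 x) / x ^ 5
  | _ => fun _ => 0

theorem GG_deriv {φ : ℝ → ℝ} (h : ContDiff ℝ 6 φ) (m e R α β : ℝ) : ∀ i, i < 4 + 2 → ∀ x : ℝ, 0 < x →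
    HasDerivAt (GG φ m e R α β i) (GG φ m e R α β (i + 1) x) x := by
  intro i hi x hx
  have d0 := EE_deriv h m e (j := 0) (by norm_num) hx
  have d1 := EE_deriv h m e (j := 1) (by norm_num) hx
  have d2 := EE_deriv h m e (j := 2) (by norm_num) hx
  have d3 := EE_deriv h m e (j := 3) (by norm_num) hx
  have d4 := EE_deriv h m e (j := 4) (by norm_num) hx
  have d5 := EE_deriv h m e (j := 5) (by norm_num) hx
  interval_cases i
  · have h1 := (((hasDerivAt_id x).mul d0).const_mul R).add (((hasDerivAt_id x).const_mul α).add_const β)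
    refine h1.congr_deriv ?_
    simp only [GG, id]
    push_cast
    field_simp
    ring
  · have h1 := ((d0.sub d1).const_mul R).add_const α
    refine h1.congr_deriv ?_
    simp only [GG]
    push_cast
    field_simp
    ring
  · have h1 := (d2.const_mul R).fun_div (hasDerivAt_id x) hx.ne'
    refine h1.congr_deriv ?_
    simp only [GG, id]
    push_cast
    field_simp
    ring
  · have h1 := (((d2.const_mul 3).add d3).const_mul R).neg.fun_div (hasDerivAt_pow 2 x) (by positivity)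
    refine h1.congr_deriv ?_
    simp only [GG, Pi.add_apply, Pi.neg_apply]
    push_cast
    field_simp
    ring
  · have h1 := ((((d2.const_mul 12).add (d3.const_mul 8)).add d4).const_mul R).fun_div (hasDerivAt_pow 3 x) (by positivity)
    refine h1.congr_deriv ?_
    simp only [GG, Pi.add_apply]
    push_cast
    field_simp
    ring
  · have h1 := (((((d2.const_mul 60).add (d3.const_mul 60)).add (d4.const_mul 15)).add d5).const_mul R).neg.fun_div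
      (hasDerivAt_pow 4 x) (by positivity)
    refine h1.congr_deriv ?_
    simp only [GG, Pi.add_apply, Pi.neg_apply]
    push_cast
    field_simp
    ring

/-- the mixed differences of order six on a line -/
theorem cnd_line {φ : ℝ → ℝ} (h : ContDiff ℝ 6 φ) (m e R α β : ℝ) {l M : ℝ} {a b : ℕ} (ha : 0 < a)
    (hT : ∀ x : ℝ, (a : ℝ) ≤ x → x ≤ b → l ≤ R * TT φ m (m + e / x) / x ^ 5 ∧ R * TT φ m (m + e / x) / x ^ 5 ≤ M) :
    Cnd 4 (fun n : ℕ => R * ((n : ℝ) * φ (m + e / n)) + (α * n + β)) a b l M := by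
  have ha0 : (0 : ℝ) < a := by exact_mod_cast ha
  have h1 := cnd_of_deriv6 4 (GG φ m e R α β) a b l M (fun i hi x hx => GG_deriv h m e R α β i hi x (ha0.trans_le hx)) (by
    intro x hx hx2
    have e1 : GG φ m e R α β (4 + 2) x = R * TT φ m (m + e / x) / x ^ 5 := by
      simp only [GG, TT, EE]
      congr 2
      have e2 : m + e / x - m = e / x := by ring
      rw [e2]
      ring
    rw [e1]
    exact hT x hx hx2)
  have e2 : (fun n : ℕ => GG φ m e R α β 0 n) = fun n : ℕ => R * ((n : ℝ) * φ (m + e / n)) + (α * n + β) := by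
    funext n
    simp only [GG, EE, pow_zero, one_mul, iteratedDeriv_zero]
  rw [e2] at h1
  exact h1

private theorem abs3_92 {a b c d e A1 A2 A3 A4 A5 : ℝ} (h1 : |a| ≤ A1) (h2 : |b| ≤ A2) (h3 : |c| ≤ A3) (h4 : |d| ≤ A4) (h5 : |e| ≤ A5) :
    |a + b + c + d + e| ≤ A1 + A2 + A3 + A4 + A5 := by
  have e1 := abs_add_le (a + b + c + d) e
  have e2 := abs_add_le (a + b + c) d
  have e3 := abs_add_le (a + b) c
  have e4 := abs_add_le a b
  linarith

private theorem cpow92 {u D B k : ℝ} (n : ℕ) (hk : 0 ≤ k) (hu : |u| ≤ 8) (hD : |D| ≤ B) : |k * u ^ n * D| ≤ k * 8 ^ n * B := by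
  rw [abs_mul, abs_mul, abs_pow, abs_of_nonneg hk]
  have h1 : |u| ^ n ≤ 8 ^ n := pow_le_pow_left₀ (abs_nonneg _) hu n
  have h2 : k * |u| ^ n ≤ k * 8 ^ n := mul_le_mul_of_nonneg_left h1 hk
  exact mul_le_mul h2 hD (abs_nonneg _) (by positivity)

theorem TT_bd {c₁ B δ : ℝ} {φ : ℝ → ℝ} (h : C6 c₁ B δ φ) {m s : ℝ} (hm0 : 2 ≤ m) (hm : m ≤ 6) (hs : |s| ≤ 2) :
    |TT φ m s| ≤ 3 * 10 ^ 6 * B := by
  have hB0 : 0 ≤ B := (abs_nonneg _).trans (h.hi 2 le_rfl (by norm_num) s hs)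
  have hs2 := abs_le.1 hs
  have hu : |s - m| ≤ 8 := abs_le.2 ⟨by linarith, by linarith⟩
  have h2 := cpow92 (k := 360) 2 (by norm_num) hu (h.hi 2 le_rfl (by norm_num) s hs)
  have h3 := cpow92 (k := 480) 3 (by norm_num) hu (h.hi 3 (by norm_num) (by norm_num) s hs)
  have h4 := cpow92 (k := 180) 4 (by norm_num) hu (h.hi 4 (by norm_num) (by norm_num) s hs)
  have h5 := cpow92 (k := 24) 5 (by norm_num) hu (h.hi 5 (by norm_num) (by norm_num) s hs)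
  have h6 := cpow92 (k := 1) 6 (by norm_num) hu (h.hi 6 (by norm_num) le_rfl s hs)
  rw [one_mul] at h6
  unfold TT
  refine (abs3_92 h2 h3 h4 h5 h6).trans ?_
  nlinarith

/-- the smooth part -/
private theorem PP_lip92 {c₁ B δ : ℝ} {φ : ℝ → ℝ} (h : C6 c₁ B δ φ) {m s t : ℝ} (hm0 : 2 ≤ m) (hm : m ≤ 6) (hs : |s| ≤ 2) (ht : |t| ≤ 2) :
    |(360 * (s - m) ^ 2 * iteratedDeriv 2 φ s + 480 * (s - m) ^ 3 * iteratedDeriv 3 φ s +
    180 * (s - m) ^ 4 * iteratedDeriv 4 φ s + 24 * (s - m) ^ 5 * iteratedDeriv 5 φ s) -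
      (360 * (t - m) ^ 2 * iteratedDeriv 2 φ t + 480 * (t - m) ^ 3 * iteratedDeriv 3 φ t +
    180 * (t - m) ^ 4 * iteratedDeriv 4 φ t + 24 * (t - m) ^ 5 * iteratedDeriv 5 φ t)| ≤ 3 * 10 ^ 6 * B * |s - t| := by
  have hB0 : 0 ≤ B := (abs_nonneg _).trans (h.hi 2 le_rfl (by norm_num) s hs)
  have hder : ∀ x : ℝ, HasDerivAt (fun x : ℝ => 360 * (x - m) ^ 2 * iteratedDeriv 2 φ x + 480 * (x - m) ^ 3 * iteratedDeriv 3 φ x +
    180 * (x - m) ^ 4 * iteratedDeriv 4 φ x + 24 * (x - m) ^ 5 * iteratedDeriv 5 φ x)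
      (720 * (x - m) ^ 1 * iteratedDeriv 2 φ x + 1800 * (x - m) ^ 2 * iteratedDeriv 3 φ x + 1200 * (x - m) ^ 3 * iteratedDeriv 4 φ x +
        300 * (x - m) ^ 4 * iteratedDeriv 5 φ x + 24 * (x - m) ^ 5 * iteratedDeriv 6 φ x) x := by
    intro x
    have hp : ∀ n : ℕ, HasDerivAt (fun x : ℝ => (x - m) ^ n) ((n : ℝ) * (x - m) ^ (n - 1) * 1) x := fun n =>
      ((hasDerivAt_id x).sub_const m).fun_pow n
    have d2 := ((hp 2).const_mul 360).mul (id_deriv h.sm (j := 2) (by norm_num) x)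
    have d3 := ((hp 3).const_mul 480).mul (id_deriv h.sm (j := 3) (by norm_num) x)
    have d4 := ((hp 4).const_mul 180).mul (id_deriv h.sm (j := 4) (by norm_num) x)
    have d5 := ((hp 5).const_mul 24).mul (id_deriv h.sm (j := 5) (by norm_num) x)
    refine (((d2.add d3).add d4).add d5).congr_deriv ?_
    push_cast
    ring
  have hbd : ∀ x ∈ Set.Icc (-2 : ℝ) 2, ‖720 * (x - m) ^ 1 * iteratedDeriv 2 φ x + 1800 * (x - m) ^ 2 * iteratedDeriv 3 φ x + 1200 * (x - m) ^ 3 * iteratedDeriv 4 φ x +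
        300 * (x - m) ^ 4 * iteratedDeriv 5 φ x + 24 * (x - m) ^ 5 * iteratedDeriv 6 φ x‖ ≤ 3 * 10 ^ 6 * B := by
    intro x hx
    have hx' : |x| ≤ 2 := abs_le.2 ⟨hx.1, hx.2⟩
    have hu : |x - m| ≤ 8 := abs_le.2 ⟨by linarith [hx.1], by linarith [hx.2]⟩
    rw [Real.norm_eq_abs]
    refine (abs3_92 (cpow92 (k := 720) 1 (by norm_num) hu (h.hi 2 le_rfl (by norm_num) x hx'))
      (cpow92 (k := 1800) 2 (by norm_num) hu (h.hi 3 (by norm_num) (by norm_num) x hx'))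
      (cpow92 (k := 1200) 3 (by norm_num) hu (h.hi 4 (by norm_num) (by norm_num) x hx'))
      (cpow92 (k := 300) 4 (by norm_num) hu (h.hi 5 (by norm_num) (by norm_num) x hx'))
      (cpow92 (k := 24) 5 (by norm_num) hu (h.hi 6 (by norm_num) le_rfl x hx'))).trans ?_
    nlinarith
  have hs2 := abs_le.1 hs
  have ht2 := abs_le.1 ht
  have hlip := Convex.norm_image_sub_le_of_norm_hasDerivWithin_le (s := Set.Icc (-2 : ℝ) 2) (C := 3 * 10 ^ 6 * B)
    (fun z _ => (hder z).hasDerivWithinAt) hbd (convex_Icc _ _) (x := t) (y := s) ⟨ht2.1, ht2.2⟩ ⟨hs2.1, hs2.2⟩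
  rw [Real.norm_eq_abs, Real.norm_eq_abs] at hlip
  exact hlip

theorem TT_lip {c₁ B δ : ℝ} {φ : ℝ → ℝ} (h : C6 c₁ B δ φ) {m s t : ℝ} (hm0 : 2 ≤ m) (hm : m ≤ 6) (hs : |s| ≤ 2) (ht : |t| ≤ 2)
    (hst : |s - t| ≤ δ) : |TT φ m s - TT φ m t| ≤ 4 * 10 ^ 6 * B * |s - t| + 3 / 100 * c₁ := by
  have hB0 : 0 ≤ B := (abs_nonneg _).trans (h.hi 2 le_rfl (by norm_num) s hs)
  have hs2 := abs_le.1 hs
  have ht2 := abs_le.1 ht
  have hu : |s - m| ≤ 8 := abs_le.2 ⟨by linarith, by linarith⟩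
  have hv : |t - m| ≤ 8 := abs_le.2 ⟨by linarith, by linarith⟩
  have h1 := PP_lip92 h hm0 hm hs ht
  have hmd := h.md s t hs ht hst
  have h6 := h.hi 6 (by norm_num) le_rfl s hs
  have e : TT φ m s - TT φ m t = ((360 * (s - m) ^ 2 * iteratedDeriv 2 φ s + 480 * (s - m) ^ 3 * iteratedDeriv 3 φ s +
    180 * (s - m) ^ 4 * iteratedDeriv 4 φ s + 24 * (s - m) ^ 5 * iteratedDeriv 5 φ s) -
      (360 * (t - m) ^ 2 * iteratedDeriv 2 φ t + 480 * (t - m) ^ 3 * iteratedDeriv 3 φ t +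
    180 * (t - m) ^ 4 * iteratedDeriv 4 φ t + 24 * (t - m) ^ 5 * iteratedDeriv 5 φ t)) +
      ((s - m) ^ 6 - (t - m) ^ 6) * iteratedDeriv 6 φ s + (t - m) ^ 6 * (iteratedDeriv 6 φ s - iteratedDeriv 6 φ t) := by
    unfold TT
    ring
  have h7 : |(s - m) ^ 6 - (t - m) ^ 6| ≤ 10 ^ 6 * |s - t| := by
    have e7 : (s - m) ^ 6 - (t - m) ^ 6 = (s - t) * ((s - m) ^ 5 + (s - m) ^ 4 * (t - m) + (s - m) ^ 3 * (t - m) ^ 2 +
      (s - m) ^ 2 * (t - m) ^ 3 + (s - m) * (t - m) ^ 4 + (t - m) ^ 5) := by ring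
    rw [e7, abs_mul, mul_comm]
    refine mul_le_mul_of_nonneg_right ?_ (abs_nonneg _)
    have q : ∀ i j : ℕ, i + j = 5 → |(s - m) ^ i * (t - m) ^ j| ≤ 8 ^ 5 := by
      intro i j hij
      rw [abs_mul, abs_pow, abs_pow, ← hij, pow_add]
      exact mul_le_mul (pow_le_pow_left₀ (abs_nonneg _) hu i) (pow_le_pow_left₀ (abs_nonneg _) hv j) (by positivity) (by positivity)
    have q0 := q 5 0 rfl
    have q1 := q 4 1 rfl
    have q2 := q 3 2 rfl
    have q3 := q 2 3 rfl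
    have q4 := q 1 4 rfl
    have q5 := q 0 5 rfl
    rw [pow_zero, mul_one] at q0
    rw [pow_one] at q1 q4
    rw [pow_zero, one_mul] at q5
    have a1 := abs_add_le ((s - m) ^ 5 + (s - m) ^ 4 * (t - m) + (s - m) ^ 3 * (t - m) ^ 2 +
      (s - m) ^ 2 * (t - m) ^ 3 + (s - m) * (t - m) ^ 4) ((t - m) ^ 5)
    have a2 := abs3_92 q0 q1 q2 q3 q4
    have q5' : |(t - m) ^ 5| ≤ 32768 := q5.trans (by norm_num)
    have a3 : (8 : ℝ) ^ 5 = 32768 := by norm_num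
    rw [a3] at a2
    have a4 : (10 : ℝ) ^ 6 = 1000000 := by norm_num
    rw [a4]
    linarith
  have h8 : |((s - m) ^ 6 - (t - m) ^ 6) * iteratedDeriv 6 φ s| ≤ 10 ^ 6 * |s - t| * B := by
    rw [abs_mul]
    exact mul_le_mul h7 h6 (abs_nonneg _) (by positivity)
  have h9 : |(t - m) ^ 6 * (iteratedDeriv 6 φ s - iteratedDeriv 6 φ t)| ≤ 8 ^ 6 * (c₁ / 10 ^ 7) := by
    rw [abs_mul, abs_pow]
    exact mul_le_mul (pow_le_pow_left₀ (abs_nonneg _) hv 6) hmd (abs_nonneg _) (by positivity)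
  have hc0 : 0 ≤ c₁ := by
    have := (abs_nonneg _).trans hmd
    linarith
  rw [e]
  have a1 := abs_add_le (((360 * (s - m) ^ 2 * iteratedDeriv 2 φ s + 480 * (s - m) ^ 3 * iteratedDeriv 3 φ s +
    180 * (s - m) ^ 4 * iteratedDeriv 4 φ s + 24 * (s - m) ^ 5 * iteratedDeriv 5 φ s) -
      (360 * (t - m) ^ 2 * iteratedDeriv 2 φ t + 480 * (t - m) ^ 3 * iteratedDeriv 3 φ t +
    180 * (t - m) ^ 4 * iteratedDeriv 4 φ t + 24 * (t - m) ^ 5 * iteratedDeriv 5 φ t)) +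
      ((s - m) ^ 6 - (t - m) ^ 6) * iteratedDeriv 6 φ s) ((t - m) ^ 6 * (iteratedDeriv 6 φ s - iteratedDeriv 6 φ t))
  have a2 := abs_add_le ((360 * (s - m) ^ 2 * iteratedDeriv 2 φ s + 480 * (s - m) ^ 3 * iteratedDeriv 3 φ s +
    180 * (s - m) ^ 4 * iteratedDeriv 4 φ s + 24 * (s - m) ^ 5 * iteratedDeriv 5 φ s) -
      (360 * (t - m) ^ 2 * iteratedDeriv 2 φ t + 480 * (t - m) ^ 3 * iteratedDeriv 3 φ t +
    180 * (t - m) ^ 4 * iteratedDeriv 4 φ t + 24 * (t - m) ^ 5 * iteratedDeriv 5 φ t))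
      (((s - m) ^ 6 - (t - m) ^ 6) * iteratedDeriv 6 φ s)
  have a3 : (8 : ℝ) ^ 6 * (c₁ / 10 ^ 7) ≤ 3 / 100 * c₁ := by
    have : (8 : ℝ) ^ 6 * (c₁ / 10 ^ 7) = (8 ^ 6 / 10 ^ 7) * c₁ := by ring
    rw [this]
    exact mul_le_mul_of_nonneg_right (by norm_num) hc0
  have a4 : 10 ^ 6 * |s - t| * B + 3 * 10 ^ 6 * B * |s - t| = 4 * 10 ^ 6 * B * |s - t| := by ring
  linarith

/-- **The choice of the direction.** -/
theorem TT_large {φ : ℝ → ℝ} {c₁ s : ℝ} (hc : 0 < c₁) (hs0 : 0 ≤ s) (hs1 : s ≤ 1) (h2 : c₁ ≤ iteratedDeriv 2 φ s) :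
    ∃ m : ℕ, 2 ≤ m ∧ m ≤ 6 ∧ 2 / 5 * c₁ ≤ |TT φ m s| := by
  by_contra hcon
  push Not at hcon
  set a := iteratedDeriv 2 φ s with ha
  set b := iteratedDeriv 3 φ s with hb
  set c := iteratedDeriv 4 φ s with hcd
  set d := iteratedDeriv 5 φ s with hd
  set e := iteratedDeriv 6 φ s with he
  set Q : ℝ → ℝ := fun u => 360 * a + 480 * b * u + 180 * c * u ^ 2 + 24 * d * u ^ 3 + e * u ^ 4 with hQ
  have hT : ∀ m : ℝ, TT φ m s = (s - m) ^ 2 * Q (s - m) := by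
    intro m
    simp only [TT, hQ, ← ha, ← hb, ← hcd, ← hd, ← he]
    ring
  have hq : ∀ m : ℕ, 2 ≤ m → m ≤ 6 → |Q (s - m)| < 2 / 5 * c₁ := by
    intro m hm1 hm2
    have h1 := hcon m hm1 hm2
    rw [hT, abs_mul, abs_of_nonneg (sq_nonneg _)] at h1
    have h3 : (2 : ℝ) ≤ m := by exact_mod_cast hm1
    have h4 : 1 ≤ (s - m) ^ 2 := by nlinarith
    have h5 := abs_nonneg (Q (s - m))
    nlinarith
  have id : 24 * (360 * a) = (s - 3) * (s - 4) * (s - 5) * (s - 6) * Q (s - 2) - 4 * ((s - 2) * (s - 4) * (s - 5) * (s - 6)) * Q (s - 3) +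
      6 * ((s - 2) * (s - 3) * (s - 5) * (s - 6)) * Q (s - 4) - 4 * ((s - 2) * (s - 3) * (s - 4) * (s - 6)) * Q (s - 5) +
      (s - 2) * (s - 3) * (s - 4) * (s - 5) * Q (s - 6) := by
    simp only [hQ]
    ring
  have q2 := hq 2 (by norm_num) (by norm_num)
  have q3 := hq 3 (by norm_num) (by norm_num)
  have q4 := hq 4 (by norm_num) (by norm_num)
  have q5 := hq 5 (by norm_num) (by norm_num)
  have q6 := hq 6 (by norm_num) (by norm_num)
  push_cast at q2 q3 q4 q5 q6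
  have w : ∀ i : ℝ, 2 ≤ i → i ≤ 6 → |s - i| ≤ 6 := fun i h1 h2 => abs_le.2 ⟨by linarith, by linarith⟩
  have w2 := w 2 (by norm_num) (by norm_num)
  have w3 := w 3 (by norm_num) (by norm_num)
  have w4 := w 4 (by norm_num) (by norm_num)
  have w5 := w 5 (by norm_num) (by norm_num)
  have w6 := w 6 (by norm_num) (by norm_num)
  have p4 : ∀ x y z t : ℝ, |x| ≤ 6 → |y| ≤ 6 → |z| ≤ 6 → |t| ≤ 6 → |x * y * z * t| ≤ 1296 := by
    intro x y z t hx hy hz ht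
    rw [abs_mul, abs_mul, abs_mul]
    calc |x| * |y| * |z| * |t| ≤ 6 * 6 * 6 * 6 := by gcongr
      _ = 1296 := by norm_num
  have r : ∀ k p q : ℝ, 0 < k → |p| ≤ 1296 → |q| < 2 / 5 * c₁ → |k * p * q| ≤ k * 1296 * (2 / 5 * c₁) := by
    intro k p q hk hp hq
    rw [abs_mul, abs_mul, abs_of_pos hk]
    gcongr
  have r2 := r 1 _ _ one_pos (p4 _ _ _ _ w3 w4 w5 w6) q2
  have r3 := r 4 _ _ (by norm_num) (p4 _ _ _ _ w2 w4 w5 w6) q3
  have r4 := r 6 _ _ (by norm_num) (p4 _ _ _ _ w2 w3 w5 w6) q4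
  have r5 := r 4 _ _ (by norm_num) (p4 _ _ _ _ w2 w3 w4 w6) q5
  have r6 := r 1 _ _ one_pos (p4 _ _ _ _ w2 w3 w4 w5) q6
  rw [one_mul] at r2 r6
  have s2 := abs_le.1 r2
  have s3 := abs_le.1 r3
  have s4 := abs_le.1 r4
  have s5 := abs_le.1 r5
  have s6 := abs_le.1 r6
  linarith [s2.2, s3.1, s4.2, s5.1, s6.2]

end Pool.Agent.Helper92.OV6
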