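import Pool.Agent.Helper22.OV.D5b
import Pool.Agent.Helper92.OV6.Ph

/-!
# Project OV6 (MP_fb29e9_nt): the conditions up to the sixth derivative, uniformly

The phase `oph (gam H α η) j s` is a function of class `C⁶` of `(α, η, j π/2, ±1, x)` if `H` is of class `C⁷`; its derivatives in `x` are bounded and uniformly continuous on
compact sets.
-/

set_option autoImplicit false

namespace Pool.Agent.Helper92.OV6

open Real Set
open Pool.Agent.Helper22.AE (IsSupp rho)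
open Pool.Agent.Helper22.OV (gam oph oan owt sg sg_abs ov_cond)

variable {P : Type} [NormedAddCommGroup P] [NormedSpace ℝ P]

/-- the derivative in the last variable -/
noncomputable def pd (F : P × ℝ → ℝ) : P × ℝ → ℝ := fun p => fderiv ℝ F p (0, 1)

theorem pd_deriv {F : P × ℝ → ℝ} (h : Differentiable ℝ F) (a : P) : deriv (fun x => F (a, x)) = fun x => pd F (a, x) := by
  funext x
  have h1 : HasDerivAt (fun x : ℝ => (a, x)) ((0 : P), (1 : ℝ)) x := (hasDerivAt_const x a).prodMk (hasDerivAt_id x)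
  have h2 := (h (a, x)).hasFDerivAt.comp_hasDerivAt x h1
  exact h2.deriv

theorem pd_contDiff {F : P × ℝ → ℝ} {n : ℕ} (h : ContDiff ℝ ((n : ℕ) + 1) F) : ContDiff ℝ n (pd F) := by
  have h1 : ContDiff ℝ n (fderiv ℝ F) := h.fderiv_right le_rfl
  exact h1.clm_apply contDiff_const

theorem pd_iter (n : ℕ) : ∀ F : P × ℝ → ℝ, ContDiff ℝ n F → Continuous (pd^[n] F) ∧
    ∀ a : P, iteratedDeriv n (fun x => F (a, x)) = fun x => (pd^[n] F) (a, x) := by
  induction n with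
  | zero =>
    intro F hF
    refine ⟨hF.continuous, fun a => ?_⟩
    rw [iteratedDeriv_zero]
    rfl
  | succ n ih =>
    intro F hF
    have hF' : ContDiff ℝ ((n : ℕ) + 1) F := by exact_mod_cast hF
    have hd : Differentiable ℝ F := hF'.differentiable (by
      intro h
      have h2 : (((n : ℕ) + 1 : ℕ) : WithTop ℕ∞) = 0 := by exact_mod_cast h
      have : n + 1 = 0 := by exact_mod_cast h2
      omega)
    obtain ⟨h1, h2⟩ := ih (pd F) (pd_contDiff hF')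
    refine ⟨h1, fun a => ?_⟩
    rw [iteratedDeriv_succ', pd_deriv hd, h2 a]
    rfl

omit [NormedSpace ℝ P] in
theorem unif_bd [ProperSpace P] {G : P × ℝ → ℝ} (hG : Continuous G) :
    ∃ B : ℝ, 0 ≤ B ∧ ∀ (a : P) (x : ℝ), ‖a‖ ≤ 10 → |x| ≤ 10 → |G (a, x)| ≤ B := by
  obtain ⟨B, hB⟩ := (isCompact_closedBall (0 : P × ℝ) 10).exists_bound_of_continuousOn hG.continuousOn
  refine ⟨|B|, abs_nonneg _, fun a x ha hx => ?_⟩
  have h1 := hB (a, x) (by
    rw [mem_closedBall_zero_iff, Prod.norm_def]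
    exact max_le ha hx)
  rw [Real.norm_eq_abs] at h1
  exact h1.trans (le_abs_self _)

omit [NormedSpace ℝ P] in
theorem unif_md [ProperSpace P] {G : P × ℝ → ℝ} (hG : Continuous G) {ε : ℝ} (hε : 0 < ε) :
    ∃ δ : ℝ, 0 < δ ∧ ∀ (a : P) (x y : ℝ), ‖a‖ ≤ 10 → |x| ≤ 10 → |y| ≤ 10 → |x - y| ≤ δ → |G (a, x) - G (a, y)| ≤ ε := by
  have h1 := (isCompact_closedBall (0 : P × ℝ) 10).uniformContinuousOn_of_continuous hG.continuousOn
  obtain ⟨δ, hδ, h2⟩ := Metric.uniformContinuousOn_iff.1 h1 ε hε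
  refine ⟨δ / 2, by positivity, fun a x y ha hx hy hxy => ?_⟩
  have h3 := h2 (a, x) (by
    rw [mem_closedBall_zero_iff, Prod.norm_def]
    exact max_le ha hx) (a, y) (by
    rw [mem_closedBall_zero_iff, Prod.norm_def]
    exact max_le ha hy) (by
    rw [Prod.dist_eq, dist_self]
    refine max_lt hδ ?_
    rw [Real.dist_eq]
    linarith)
  rw [Real.dist_eq] at h3
  exact h3.le

/-- the phase as a function of all parameters -/
noncomputable def FF (H : ℝ → ℝ) : (ℝ × ℝ × ℝ × ℝ) × ℝ → ℝ := fun p =>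
  sqrt (1 + p.2 ^ 2) * (H (p.1.2.2.1 + p.1.2.2.2 * arctan p.2 + p.1.1) * cos p.1.1 -
    deriv H (p.1.2.2.1 + p.1.2.2.2 * arctan p.2 + p.1.1) * sin p.1.1 + p.1.2.1 * cos p.1.1)

theorem FF_contDiff {H : ℝ → ℝ} (h7 : ContDiff ℝ 7 H) : ContDiff ℝ 6 (FF H) := by
  have h6 : ContDiff ℝ 6 H := h7.of_le (by norm_num)
  have hd : ContDiff ℝ 6 (deriv H) := ((contDiff_succ_iff_deriv (n := 6)).1 h7).2.2
  have ha : ContDiff ℝ 6 arctan := Real.contDiff_arctan.of_le le_top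
  have hx : ContDiff ℝ 6 (fun p : (ℝ × ℝ × ℝ × ℝ) × ℝ => p.1.2.2.1 + p.1.2.2.2 * arctan p.2 + p.1.1) := by
    have h1 : ContDiff ℝ 6 (fun p : (ℝ × ℝ × ℝ × ℝ) × ℝ => arctan p.2) := ha.comp contDiff_snd
    fun_prop
  have hs : ContDiff ℝ 6 (fun p : (ℝ × ℝ × ℝ × ℝ) × ℝ => sqrt (1 + p.2 ^ 2)) := by
    refine ContDiff.sqrt (by fun_prop) (fun x => by positivity)
  have e1 : ContDiff ℝ 6 (fun p : (ℝ × ℝ × ℝ × ℝ) × ℝ => H (p.1.2.2.1 + p.1.2.2.2 * arctan p.2 + p.1.1)) := h6.comp hx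
  have e2 : ContDiff ℝ 6 (fun p : (ℝ × ℝ × ℝ × ℝ) × ℝ => deriv H (p.1.2.2.1 + p.1.2.2.2 * arctan p.2 + p.1.1)) := hd.comp hx
  have e3 : ContDiff ℝ 6 (fun p : (ℝ × ℝ × ℝ × ℝ) × ℝ => cos p.1.1) := by fun_prop
  have e4 : ContDiff ℝ 6 (fun p : (ℝ × ℝ × ℝ × ℝ) × ℝ => sin p.1.1) := by fun_prop
  have e5 : ContDiff ℝ 6 (fun p : (ℝ × ℝ × ℝ × ℝ) × ℝ => p.1.2.1) := by fun_prop
  exact hs.mul (((e1.mul e3).sub (e2.mul e4)).add (e5.mul e3))

theorem oph_eq (H : ℝ → ℝ) (α η : ℝ) (j : ℕ) (s : Bool) :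
    oph (gam H α η) j s = fun x => FF H ((α, η, (j : ℝ) * (π / 2), sg s), x) := by
  funext x
  have e : oan j s x = (j : ℝ) * (π / 2) + sg s * arctan x := by
    unfold oan sg
    cases s <;> simp
  unfold oph
  rw [e]
  rfl

/-- the conditions on the phase -/
theorem cond6 {H : ℝ → ℝ} (h7 : ContDiff ℝ 7 H) {c₁ : ℝ} (hc : 0 < c₁) : ∃ B δ : ℝ, 1 ≤ B ∧ 0 < δ ∧
    ∀ α η : ℝ, |α| ≤ 2 → |η| ≤ 2 → ∀ (j : ℕ) (s : Bool), j < 4 →
    (∀ x, |x| ≤ 2 → c₁ ≤ deriv (deriv (oph (gam H α η) j s)) x) → C6 c₁ B δ (oph (gam H α η) j s) := by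
  have hF := FF_contDiff h7
  have hF' : ∀ n : ℕ, n ≤ 6 → ContDiff ℝ n (FF H) := fun n hn => hF.of_le (by exact_mod_cast hn)
  have hb : ∀ n : ℕ, ∃ B : ℝ, 0 ≤ B ∧ (n ≤ 6 → ∀ (a : ℝ × ℝ × ℝ × ℝ) (x : ℝ), ‖a‖ ≤ 10 → |x| ≤ 10 → |(pd^[n] (FF H)) (a, x)| ≤ B) := by
    intro n
    by_cases hn : n ≤ 6
    · obtain ⟨B, hB0, hB⟩ := unif_bd (pd_iter n (FF H) (hF' n hn)).1
      exact ⟨B, hB0, fun _ => hB⟩
    · exact ⟨0, le_rfl, fun h => absurd h hn⟩
  choose Bf hBf0 hBf using hb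
  obtain ⟨δ, hδ, hmd⟩ := unif_md (pd_iter 6 (FF H) (hF' 6 le_rfl)).1 (show 0 < c₁ / 10 ^ 7 by positivity)
  refine ⟨∑ n ∈ Finset.range 7, Bf n + 1, δ, ?_, hδ, ?_⟩
  · have := Finset.sum_nonneg fun n (_ : n ∈ Finset.range 7) => hBf0 n
    linarith
  intro α η hα hη j s hj hlo
  have ha : ‖((α, η, (j : ℝ) * (π / 2), sg s) : ℝ × ℝ × ℝ × ℝ)‖ ≤ 10 := by
    rw [Prod.norm_def, Prod.norm_def, Prod.norm_def]
    simp only [Real.norm_eq_abs]
    refine max_le (by linarith) (max_le (by linarith) (max_le ?_ ?_))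
    · have hj' : (j : ℝ) ≤ 3 := by exact_mod_cast (by omega : j ≤ 3)
      have hpi := Real.pi_lt_four
      have hpi0 := Real.pi_pos
      rw [abs_of_nonneg (by positivity)]
      have h0 : (0 : ℝ) ≤ j := Nat.cast_nonneg j
      nlinarith
    · rw [sg_abs]
      norm_num
  have hit : ∀ n : ℕ, n ≤ 6 → iteratedDeriv n (oph (gam H α η) j s) = fun x => (pd^[n] (FF H)) ((α, η, (j : ℝ) * (π / 2), sg s), x) := by
    intro n hn
    rw [oph_eq]
    exact (pd_iter n (FF H) (hF' n hn)).2 _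
  refine ⟨?_, ?_, ?_, ?_⟩
  · rw [oph_eq]
    exact hF.comp (by fun_prop)
  · intro x hx
    have h1 := hlo x hx
    rw [iteratedDeriv_succ, iteratedDeriv_one]
    exact h1
  · intro n _ hn x hx
    rw [hit n hn]
    refine (hBf n hn _ x ha (by linarith)).trans ?_
    have h1 := Finset.single_le_sum (f := Bf) (fun n _ => hBf0 n) (Finset.mem_range.2 (by omega : n < 7))
    linarith
  · intro x y hx hy hxy
    rw [hit 6 le_rfl]
    exact hmd _ x y ha (by linarith) (by linarith) hxy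

end Pool.Agent.Helper92.OV6
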