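import Pool.Agent.Helper46.BF.Line

/-!
# Project OV6 (MP_fb29e9_nt): exponential sums over a line, general constants

`line4g`: `Sm f a b` for a phase with sixth differences between `R / K⁵ / A` and `α R / K⁵ / A` (`line4` of helper46 with general constants).
`cnd_of_deriv6`: mixed differences from derivatives on a half line. `abel_bv`: partial summation with a complex weight.
-/

set_option autoImplicit false

namespace Pool.Agent.Helper92.OV6

open Finset
open Pool.Agent.Helper22.GC (ee ee_add norm_ee conj_ee)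
open Pool.Agent.Helper46.BF (Sm Dif Cnd test Cnd_triv)

/-- The four steps of the test: `H_i = ⌈z^(8/2^i)⌉`, `z = l^(-1/31)`. -/
theorem line4g {A α : ℝ} (hA : 10 ^ 5 ≤ A) (hα : 1 ≤ α) : ∃ C : ℝ, 0 < C ∧ ∀ (f : ℕ → ℝ) (a b K : ℕ) (R : ℝ), A ≤ K → 1 ≤ R → R ≤ (K : ℝ) ^ 5 →
    (K : ℝ) ^ 49 ≤ R ^ 16 → b ≤ a + 2 * K →
    Cnd 4 f a b (R / (K : ℝ) ^ 5 / A) (α * (R / (K : ℝ) ^ 5 / A)) →
      ‖Sm f a b‖ ≤ C * (K * (R / (K : ℝ) ^ 5) ^ (1 / 62 : ℝ)) := by
  obtain ⟨C0, hC0, ht⟩ := test hα 4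
  have hA0 : 0 < A := lt_of_lt_of_le (by norm_num) hA
  refine ⟨2 * ((8 + A / 2) * C0) ^ (1 / 16 : ℝ), by positivity, ?_⟩
  intro f a b K R hK hR hRK hKR hab hc
  have hK1 : (400 : ℝ) ≤ K := le_trans (by norm_num) (hA.trans hK)
  have hK0 : (0 : ℝ) < K := by linarith
  have hKn : 0 < K := by exact_mod_cast hK0
  set y : ℝ := R / (K : ℝ) ^ 5 with hy
  have hy0 : 0 < y := by positivity
  have hy1 : y ≤ 1 := by
    rw [hy, div_le_one (by positivity)]
    exact hRK
  set l : ℝ := y / A with hl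
  have hl0 : 0 < l := by positivity
  have hl1' : l ≤ 1 / A := div_le_div_of_nonneg_right hy1 (by positivity)
  have hl1 : l ≤ 1 / 10 ^ 5 := hl1'.trans (div_le_div_of_nonneg_left zero_le_one (by norm_num) hA)
  -- the base `z = l^(-1/31) ≥ 1`
  set z : ℝ := l ^ (-1 / 31 : ℝ) with hz
  have hz0 : 0 < z := Real.rpow_pos_of_pos hl0 _
  have hz31 : z ^ 31 = l⁻¹ := by
    rw [hz, ← Real.rpow_natCast, ← Real.rpow_mul hl0.le, ← Real.rpow_neg_one]
    norm_num
  have hz1 : 1 ≤ z := by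
    by_contra hcon
    push Not at hcon
    have h1 : z ^ 31 < 1 := pow_lt_one₀ hz0.le hcon (by norm_num)
    rw [hz31] at h1
    have h2 : (1 : ℝ) < l⁻¹ := by
      rw [one_lt_inv₀ hl0]
      refine hl1.trans_lt (by norm_num)
    linarith
  -- `l⁻¹ ≤ A K^(31/16)`
  have hlK : (l⁻¹) ^ 16 ≤ A ^ 16 * (K : ℝ) ^ 31 := by
    have h1 : l⁻¹ = A * (K : ℝ) ^ 5 / R := by
      rw [hl, hy]
      field_simp
    rw [h1, div_pow, div_le_iff₀ (by positivity)]
    calc (A * (K : ℝ) ^ 5) ^ 16 = A ^ 16 * (K : ℝ) ^ 31 * (K : ℝ) ^ 49 := by ring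
      _ ≤ _ := mul_le_mul_of_nonneg_left hKR (by positivity)
  have hz16 : z ^ 16 ≤ A * K := by
    by_contra hcon
    push Not at hcon
    have h1 : (A * (K : ℝ)) ^ 31 < (z ^ 16) ^ 31 := pow_lt_pow_left₀ hcon (by positivity) (by norm_num)
    have h2 : (z ^ 16) ^ 31 = (l⁻¹) ^ 16 := by
      rw [← hz31]
      ring
    rw [h2, mul_pow] at h1
    have hA1 : 1 ≤ A := le_trans (by norm_num) hA
    have h3 : A ^ 16 * (K : ℝ) ^ 31 ≤ A ^ 31 * (K : ℝ) ^ 31 :=
      mul_le_mul_of_nonneg_right (pow_le_pow_right₀ hA1 (by norm_num)) (by positivity)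
    linarith
  have hz16' : 64 ≤ z ^ 16 := by
    by_contra hcon
    push Not at hcon
    have h1 : (z ^ 16) ^ 31 < 64 ^ 31 := pow_lt_pow_left₀ hcon (by positivity) (by norm_num)
    have h2 : (z ^ 16) ^ 31 = (l⁻¹) ^ 16 := by
      rw [← hz31]
      ring
    rw [h2] at h1
    have h3 : (10 : ℝ) ^ 5 ≤ l⁻¹ := by
      rw [le_inv_comm₀ (by positivity) hl0, ← one_div]
      exact hl1
    have h4 := pow_le_pow_left₀ (by positivity) h3 16
    have h5 : (64 : ℝ) ^ 31 ≤ (10 ^ 5) ^ 16 := by norm_num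
    linarith
  have hz8 : z ^ 8 ≤ K := by
    have h1 : (z ^ 8) ^ 2 ≤ (K : ℝ) ^ 2 := by
      rw [← pow_mul]
      refine hz16.trans ?_
      rw [sq]
      exact mul_le_mul_of_nonneg_right hK hK0.le
    exact (pow_le_pow_iff_left₀ (by positivity) hK0.le two_ne_zero).1 h1
  -- the steps
  set k : ℕ → ℕ := fun i => 8 / 2 ^ i with hk
  set H : ℕ → ℕ := fun i => ⌈z ^ k i⌉₊ with hH
  have hH1 : ∀ i, z ^ k i ≤ H i := fun i => Nat.le_ceil _
  have hzk1 : ∀ i, 1 ≤ z ^ k i := fun i => one_le_pow₀ hz1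
  have hH2 : ∀ i, (H i : ℝ) ≤ 2 * z ^ k i := by
    intro i
    have h1 := (Nat.ceil_lt_add_one (show 0 ≤ z ^ k i by positivity)).le
    have h2 := hzk1 i
    linarith
  have hH3 : ∀ i, 1 ≤ H i := by
    intro i
    have h1 := (hzk1 i).trans (hH1 i)
    exact_mod_cast h1
  have hH4 : ∀ i, H i ≤ 2 * K := by
    intro i
    have h1 : k i ≤ 8 := Nat.div_le_self _ _
    have h2 : z ^ k i ≤ z ^ 8 := pow_le_pow_right₀ hz1 h1
    have h3 := (Nat.ceil_lt_add_one (show 0 ≤ z ^ k i by positivity)).le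
    have h4 : (H i : ℝ) ≤ ((2 * K : ℕ) : ℝ) := by
      push_cast
      linarith
    exact_mod_cast h4
  have hk0 : k 0 = 8 := rfl
  have hk1 : k 1 = 4 := rfl
  have hk2 : k 2 = 2 := rfl
  have hk3 : k 3 = 1 := rfl
  have hH0p : ∀ i, (0 : ℝ) < H i := fun i => lt_of_lt_of_le one_pos ((hzk1 i).trans (hH1 i))
  set P : ℝ := ∏ i ∈ range 4, (H i : ℝ) with hP
  have hP' : P = H 0 * H 1 * H 2 * H 3 := by
    rw [hP]
    simp [prod_range_succ]
  have hP1 : z ^ 15 ≤ P := by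
    rw [hP']
    have h0 := hH1 0
    have h1 := hH1 1
    have h2 := hH1 2
    have h3 := hH1 3
    rw [hk0] at h0
    rw [hk1] at h1
    rw [hk2] at h2
    rw [hk3] at h3
    calc z ^ 15 = z ^ 8 * z ^ 4 * z ^ 2 * z ^ 1 := by ring
      _ ≤ _ := by gcongr
  have hP2 : P ≤ 16 * z ^ 15 := by
    rw [hP']
    have h0 := hH2 0
    have h1 := hH2 1
    have h2 := hH2 2
    have h3 := hH2 3
    rw [hk0] at h0
    rw [hk1] at h1
    rw [hk2] at h2
    rw [hk3] at h3
    calc (H 0 : ℝ) * H 1 * H 2 * H 3 ≤ (2 * z ^ 8) * (2 * z ^ 4) * (2 * z ^ 2) * (2 * z ^ 1) := by gcongr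
      _ = _ := by ring
  have hlz : l * z ^ 31 = 1 := by
    rw [hz31]
    exact mul_inv_cancel₀ hl0.ne'
  have hlP1 : 1 / z ^ 16 ≤ l * P := by
    rw [div_le_iff₀ (by positivity)]
    calc (1 : ℝ) = l * z ^ 15 * z ^ 16 := by rw [← hlz]; ring
      _ ≤ l * P * z ^ 16 := by gcongr
  have hlP2 : l * P ≤ 16 / z ^ 16 := by
    rw [le_div_iff₀ (by positivity)]
    calc l * P * z ^ 16 ≤ l * (16 * z ^ 15) * z ^ 16 := by gcongr
      _ = 16 * (l * z ^ 31) := by ring
      _ = 16 := by rw [hlz, mul_one]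
  have hs1 : 1 / z ^ 8 ≤ √(l * P) := by
    refine Real.le_sqrt_of_sq_le ?_
    rw [div_pow, one_pow, ← pow_mul]
    exact hlP1
  have hs2 : √(l * P) ≤ 4 / z ^ 8 := by
    rw [Real.sqrt_le_left (by positivity), div_pow, ← pow_mul]
    refine hlP2.trans_eq (by norm_num)
  have h14 : l * P ≤ 1 / 4 := by
    refine hlP2.trans ?_
    rw [div_le_iff₀ (by positivity)]
    linarith
  have hmain := ht f a b (2 * K) l H hl0 h14 (fun i _ => ⟨hH3 i, hH4 i⟩) (by omega) hab hc
  have hN : ((2 * K : ℕ) : ℝ) = 2 * K := by push_cast; ring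
  rw [hN, ← hP] at hmain
  -- the sum of the four terms
  have hi : ∀ i, k i * 2 ^ i = 8 → 1 / (H i : ℝ) ^ (2 ^ i) ≤ 1 / z ^ 8 := by
    intro i hi
    refine div_le_div_of_nonneg_left zero_le_one (by positivity) ?_
    calc z ^ 8 = (z ^ k i) ^ (2 ^ i) := by rw [← pow_mul, hi]
      _ ≤ _ := pow_le_pow_left₀ (by positivity) (hH1 i) _
  have hsum : ∑ i ∈ range 4, 1 / (H i : ℝ) ^ (2 ^ i) ≤ 4 * (1 / z ^ 8) := by
    have h0 := hi 0 (by rw [hk0]; norm_num)
    have h1 := hi 1 (by rw [hk1]; norm_num)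
    have h2 := hi 2 (by rw [hk2]; norm_num)
    have h3 := hi 3 (by rw [hk3]; norm_num)
    rw [sum_range_succ, sum_range_succ, sum_range_succ, sum_range_succ, sum_range_zero]
    linarith
  have hlast : 1 / (2 * K * √(l * P)) ≤ A / 2 * (1 / z ^ 8) := by
    have h1 : 1 / (2 * K * √(l * P)) ≤ 1 / (2 * K * (1 / z ^ 8)) := by
      refine div_le_div_of_nonneg_left zero_le_one (by positivity) ?_
      exact mul_le_mul_of_nonneg_left hs1 (by positivity)
    refine h1.trans ?_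
    have h2 : 1 / (2 * K * (1 / z ^ 8)) = z ^ 8 / (2 * K) := by
      field_simp
    have h3 : A / 2 * (1 / z ^ 8) = (A / 2) / z ^ 8 := by ring
    rw [h2, h3, div_le_div_iff₀ (by positivity) (by positivity)]
    calc z ^ 8 * z ^ 8 = z ^ 16 := by ring
      _ ≤ A * (K : ℝ) := hz16
      _ = A / 2 * (2 * (K : ℝ)) := by ring
  have hS : (‖Sm f a b‖ / (2 * K)) ^ 16 ≤ (8 + A / 2) * C0 * (1 / z ^ 8) := by
    have h1 : (2 : ℕ) ^ 4 = 16 := by norm_num
    rw [h1] at hmain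
    refine hmain.trans ?_
    have h2 : √(l * P) ≤ 4 * (1 / z ^ 8) := by
      refine hs2.trans_eq (by ring)
    calc C0 * (∑ i ∈ range 4, 1 / (H i : ℝ) ^ (2 ^ i) + √(l * P) + 1 / (2 * K * √(l * P)))
        ≤ C0 * (4 * (1 / z ^ 8) + 4 * (1 / z ^ 8) + A / 2 * (1 / z ^ 8)) := by gcongr
      _ = _ := by ring
  set w : ℝ := y ^ (1 / 62 : ℝ) with hw
  have hw0 : 0 < w := Real.rpow_pos_of_pos hy0 _
  have hw62 : w ^ 62 = y := by
    rw [hw, ← Real.rpow_natCast, ← Real.rpow_mul hy0.le]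
    norm_num
  have hzw : 1 ≤ z * w ^ 2 := by
    by_contra hcon
    push Not at hcon
    have h1 : (z * w ^ 2) ^ 31 < 1 := pow_lt_one₀ (by positivity) hcon (by norm_num)
    have h2 : (z * w ^ 2) ^ 31 = A := by
      rw [mul_pow, ← pow_mul, hz31, show 2 * 31 = 62 by norm_num, hw62, hl]
      field_simp
    rw [h2] at h1
    have : (10 : ℝ) ^ 5 < 1 := hA.trans_lt h1
    norm_num at this
  have hw16 : 1 / z ^ 8 ≤ w ^ 16 := by
    rw [div_le_iff₀ (by positivity)]
    calc (1 : ℝ) ≤ (z * w ^ 2) ^ 8 := one_le_pow₀ hzw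
      _ = w ^ 16 * z ^ 8 := by ring
  set D : ℝ := ((8 + A / 2) * C0) ^ (1 / 16 : ℝ) with hD
  have hD0 : 0 ≤ D := by positivity
  have hD16 : D ^ 16 = (8 + A / 2) * C0 := by
    rw [hD, ← Real.rpow_natCast, ← Real.rpow_mul (by positivity)]
    norm_num
  have hfin : ‖Sm f a b‖ / (2 * K) ≤ D * w := by
    refine (pow_le_pow_iff_left₀ (by positivity) (by positivity) (show (16 : ℕ) ≠ 0 by norm_num)).1 ?_
    refine hS.trans ?_
    rw [mul_pow, hD16]
    exact mul_le_mul_of_nonneg_left hw16 (by positivity)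
  rw [div_le_iff₀ (by positivity)] at hfin
  refine hfin.trans_eq (by ring)

/-- mixed differences from derivatives on the half line `x ≥ a` -/
theorem cnd_of_deriv6 (q : ℕ) : ∀ (G : ℕ → ℝ → ℝ) (a b : ℕ) (l m : ℝ),
    (∀ i, i < q + 2 → ∀ x : ℝ, (a : ℝ) ≤ x → HasDerivAt (G i) (G (i + 1) x) x) →
    (∀ x : ℝ, (a : ℝ) ≤ x → x ≤ b → l ≤ G (q + 2) x ∧ G (q + 2) x ≤ m) → Cnd q (fun n => G 0 n) a b l m := by
  induction q with
  | zero =>
    intro G a b l m hG hb n hn hnb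
    have h4 : (a : ℝ) ≤ n := by exact_mod_cast hn
    have h1 : ∀ x : ℝ, (a : ℝ) ≤ x → HasDerivAt (fun x => G 0 (x + 1) - G 0 x) (G 1 (x + 1) - G 1 x) x := by
      intro x hx
      have h2 := (hG 0 (by norm_num) (x + 1) (by linarith)).comp_add_const x 1
      exact h2.sub (hG 0 (by norm_num) x hx)
    obtain ⟨y, hy, hy2⟩ := exists_hasDerivAt_eq_slope (fun x => G 0 (x + 1) - G 0 x) (fun x => G 1 (x + 1) - G 1 x)
      (show (n : ℝ) < n + 1 by linarith) (fun x hx => (h1 x (h4.trans hx.1)).continuousAt.continuousWithinAt)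
      (fun x hx => h1 x (h4.trans hx.1.le))
    have hya : (a : ℝ) ≤ y := h4.trans hy.1.le
    obtain ⟨z, hz, hz2⟩ := exists_hasDerivAt_eq_slope (G 1) (G 2)
      (show y < y + 1 by linarith) (fun x hx => (hG 1 (by norm_num) x (hya.trans hx.1)).continuousAt.continuousWithinAt)
      (fun x hx => hG 1 (by norm_num) x (hya.trans hx.1.le))
    have h3 : ((n : ℝ) + 1 + 1) ≤ b := by
      have : n + 1 + 1 ≤ b := by omega
      exact_mod_cast this
    have h5 := hb z (by linarith [hz.1, hy.1]) (by linarith [hz.2, hy.2])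
    have h6 : G 2 z = (G 0 ((n : ℝ) + 1 + 1) - G 0 ((n : ℝ) + 1)) - (G 0 ((n : ℝ) + 1) - G 0 n) := by
      rw [hz2]
      have e1 : y + 1 - y = 1 := by ring
      rw [e1, div_one, hy2]
      have e2 : (n : ℝ) + 1 - n = 1 := by ring
      rw [e2, div_one]
    have e3 : (((n + 2 : ℕ)) : ℝ) = (n : ℝ) + 1 + 1 := by push_cast; ring
    have e4 : (((n + 1 : ℕ)) : ℝ) = (n : ℝ) + 1 := by push_cast; ring
    simp only [e3, e4]
    rw [← h6]
    exact h5
  | succ q ih =>
    intro G a b l m hG hb u hu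
    rcases Nat.le_total b (a + u) with hbu | hbu
    · exact Cnd_triv q _ _ _ _ _ (by omega)
    have hu0 : (0 : ℝ) < u := by exact_mod_cast hu
    have h0 := ih (fun i x => G i (x + u) - G i x) a (b - u) (l * u) (m * u) (fun i hi x hxa => by
      have h2 := (hG i (by omega) (x + u) (by linarith)).comp_add_const x u
      exact h2.sub (hG i (by omega) x hxa)) (fun x hx hx2 => by
      have hbu' : ((b - u : ℕ) : ℝ) = b - u := by
        rw [Nat.cast_sub (by omega)]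
      rw [hbu'] at hx2
      obtain ⟨z, hz, hz2⟩ := exists_hasDerivAt_eq_slope (G (q + 2)) (G (q + 2 + 1))
        (show x < x + u by linarith) (fun y hy => (hG (q + 2) (by omega) y (hx.trans hy.1)).continuousAt.continuousWithinAt)
        (fun y hy => hG (q + 2) (by omega) y (hx.trans hy.1.le))
      have h5 := hb z (by linarith [hz.1]) (by linarith [hz.2])
      have h6 : G (q + 2) (x + u) - G (q + 2) x = G (q + 2 + 1) z * u := by
        rw [hz2]
        have e1 : x + u - x = u := by ring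
        rw [e1]
        field_simp
      rw [h6]
      exact ⟨mul_le_mul_of_nonneg_right h5.1 hu0.le, mul_le_mul_of_nonneg_right h5.2 hu0.le⟩)
    have e : Dif u (fun n : ℕ => G 0 n) = fun n : ℕ => (fun i x => G i (x + u) - G i x) 0 (n : ℝ) := by
      funext n
      unfold Dif
      simp only
      push_cast
      rfl
    rw [e]
    exact h0


/-- Partial summation with a complex weight of bounded variation. -/
theorem abel_bv (w : ℕ → ℂ) (e : ℕ → ℂ) {a : ℕ} {M V B : ℝ} (m : ℕ)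
    (hB : ∀ n, a ≤ n → n ≤ a + m → ‖w n‖ ≤ B)
    (hw : ∀ n, a ≤ n → n < a + m → ‖w (n + 1) - w n‖ ≤ V)
    (hM : ∀ b', a ≤ b' → b' ≤ a + m + 1 → ‖∑ n ∈ Ico a b', e n‖ ≤ M) :
    ‖∑ n ∈ Ico a (a + m + 1), w n * e n‖ ≤ (B + m * V) * M := by
  have key : ‖∑ n ∈ Ico a (a + m + 1), w n * e n - w (a + m) * ∑ n ∈ Ico a (a + m + 1), e n‖ ≤ m * V * M := by
    clear hB
    induction m with
    | zero => simp
    | succ m ih =>
      have h1 := ih (fun n h1 h2 => hw n h1 (by omega)) (fun b' h1 h2 => hM b' h1 (by omega))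
      rw [show a + (m + 1) + 1 = (a + m + 1) + 1 by ring,
        sum_Ico_succ_top (show a ≤ a + m + 1 by omega) (fun n => w n * e n),
        sum_Ico_succ_top (show a ≤ a + m + 1 by omega) (fun n => e n), show a + (m + 1) = a + m + 1 by ring]
      have h2 : ∑ k ∈ Ico a (a + m + 1), w k * e k + w (a + m + 1) * e (a + m + 1) -
          w (a + m + 1) * (∑ k ∈ Ico a (a + m + 1), e k + e (a + m + 1)) =
          (∑ k ∈ Ico a (a + m + 1), w k * e k - w (a + m) * ∑ k ∈ Ico a (a + m + 1), e k) -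
            (w (a + m + 1) - w (a + m)) * ∑ k ∈ Ico a (a + m + 1), e k := by
        ring
      rw [h2]
      have h3 := hw (a + m) (by omega) (by omega)
      have h4 : ‖(w (a + m + 1) - w (a + m)) * ∑ k ∈ Ico a (a + m + 1), e k‖ ≤ V * M := by
        rw [norm_mul]
        exact mul_le_mul h3 (hM _ (by omega) (by omega)) (norm_nonneg _) ((norm_nonneg _).trans h3)
      calc _ ≤ _ := norm_sub_le _ _
        _ ≤ m * V * M + V * M := add_le_add h1 h4
        _ = _ := by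
          push_cast
          ring
  have h2 := hB (a + m) (by omega) le_rfl
  have h3 : ‖w (a + m) * ∑ n ∈ Ico a (a + m + 1), e n‖ ≤ B * M := by
    rw [norm_mul]
    exact mul_le_mul h2 (hM _ (by omega) le_rfl) (norm_nonneg _) ((norm_nonneg _).trans h2)
  have h4 : ∑ n ∈ Ico a (a + m + 1), w n * e n =
      (∑ n ∈ Ico a (a + m + 1), w n * e n - w (a + m) * ∑ n ∈ Ico a (a + m + 1), e n) +
        w (a + m) * ∑ n ∈ Ico a (a + m + 1), e n := by ring
  rw [h4]
  calc _ ≤ _ := norm_add_le _ _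
    _ ≤ m * V * M + B * M := add_le_add key h3
    _ = _ := by ring

end Pool.Agent.Helper92.OV6
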