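import Pool.Agent.Helper92.OV6.Ph
import Pool.Agent.Helper76.OV.Defs
import Pool.Agent.Helper46.BF.Oct6

/-!
# Project OV6 (MP_fb29e9_nt): the weighted sum over a line

`lineW`: the sum over an interval of the line `k = (x, e + m x)` whose slopes are in a class `[j/N, (j+1)/N)` with `|TT φ m (j/N)| ≥ (2/5) c₁`.
-/

set_option autoImplicit false

namespace Pool.Agent.Helper92.OV6

open Finset
open Pool.Agent.Helper46.BF (Sm Dif Cnd Sm_neg ee_eq)
open Pool.Agent.Helper76.OV (Cw)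

/-- an order-convex finite set of naturals is an interval -/
theorem ordconn {S : Finset ℕ} (h : ∀ x ∈ S, ∀ z ∈ S, ∀ y, x ≤ y → y ≤ z → y ∈ S) (hne : S.Nonempty) :
    ∃ a m : ℕ, S = Ico a (a + m + 1) := by
  refine ⟨S.min' hne, S.max' hne - S.min' hne, ?_⟩
  have h1 : S.min' hne ≤ S.max' hne := S.min'_le_max' hne
  ext y
  rw [mem_Ico]
  constructor
  · intro hy
    have h2 := S.min'_le y hy
    have h3 := S.le_max' y hy
    omega
  · rintro ⟨h2, h3⟩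
    exact h _ (S.min'_mem hne) _ (S.max'_mem hne) y h2 (by omega)

/-- the term on the line -/
noncomputable def tl (K i : ℕ) (W : ℝ → ℂ) (φ : ℝ → ℝ) (R m e α β : ℝ) (x : ℕ) : ℂ :=
  (((K : ℝ) / (x : ℝ) : ℝ) : ℂ) ^ i * W (m + e / x) * Pool.Agent.Helper22.AE.ee (R * ((x : ℝ) * φ (m + e / x)) + (α * x + β))

private theorem inv_diff92 {K x : ℝ} (hK : 0 < K) (hx : K ≤ x) : |1 / (x + 1) - 1 / x| ≤ 1 / K ^ 2 := by
  have hx0 : 0 < x := by linarith
  have e : 1 / (x + 1) - 1 / x = -(1 / ((x + 1) * x)) := by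
    field_simp
    ring
  rw [e, abs_neg, abs_of_pos (by positivity)]
  refine one_div_le_one_div_of_le (by positivity) ?_
  nlinarith

theorem lineW {c₁ B δ : ℝ} (hc : 0 < c₁) (hB : 1 ≤ B) (hδ : 0 < δ) : ∃ (C : ℝ) (N K₀ : ℕ), 0 < C ∧ 1 ≤ N ∧ 1 ≤ K₀ ∧
    ∀ φ : ℝ → ℝ, C6 c₁ B δ φ → ∀ W : ℝ → ℂ, Cw B W → ∀ (K : ℕ) (R : ℝ), K₀ ≤ K → 1 ≤ R → R ≤ (K : ℝ) ^ 5 →
    (K : ℝ) ^ 49 ≤ R ^ 16 → ∀ i : ℕ, i ≤ 2 → ∀ j : ℕ, j ≤ N → ∀ m : ℕ, 2 ≤ m → m ≤ 6 → 2 / 5 * c₁ ≤ |TT φ m ((j : ℝ) / N)| →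
    ∀ e α β : ℝ, |e| ≤ 12 * K → ∀ S : Finset ℕ, S ⊆ Ico K (2 * K) → (∀ x ∈ S, ∀ z ∈ S, ∀ y, x ≤ y → y ≤ z → y ∈ S) →
    (∀ x ∈ S, |(m : ℝ) + e / x - (j : ℝ) / N| ≤ 1 / N) →
      ‖∑ x ∈ S, tl K i W φ R m e α β x‖ ≤ C * (K * (R / (K : ℝ) ^ 5) ^ (1 / 62 : ℝ)) := by
  have hB0 : 0 < B := by linarith
  set A : ℝ := max (10 ^ 5) (160 / c₁) with hA
  have hA1 : 10 ^ 5 ≤ A := le_max_left _ _
  have hA2 : 160 / c₁ ≤ A := le_max_right _ _
  have hA0 : 0 < A := lt_of_lt_of_le (by norm_num) hA1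
  have hα : 1 ≤ A * (3 * 10 ^ 6 * B) := by nlinarith
  obtain ⟨C, hC, hl⟩ := line4g hA1 hα
  obtain ⟨N, hN⟩ := exists_nat_ge (10 ^ 8 * B / c₁ + 2 / δ + 2)
  have hq1 : 0 < 10 ^ 8 * B / c₁ := by positivity
  have hq2 : 0 < 2 / δ := by positivity
  have hN2 : (2 : ℝ) ≤ N := by linarith
  have hN0 : (0 : ℝ) < N := by linarith
  have hN1 : 1 ≤ N := by
    have : (1 : ℝ) ≤ N := by linarith
    exact_mod_cast this
  have hNB : 10 ^ 8 * B / c₁ ≤ N := by linarith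
  have hNδ : 2 / N ≤ δ := by
    rw [div_le_iff₀ hN0]
    have h1 : 2 / δ ≤ N := by linarith
    rw [div_le_iff₀ hδ] at h1
    linarith
  have hNB' : 4 * 10 ^ 6 * B * (2 / N) ≤ 8 / 100 * c₁ := by
    have h1 : 10 ^ 8 * B ≤ N * c₁ := by
      rw [div_le_iff₀ hc] at hNB
      exact hNB
    have h2 : 4 * 10 ^ 6 * B * (2 / N) = (8 / 100 * (10 ^ 8 * B)) / N := by
      field_simp
      ring
    rw [h2, div_le_iff₀ hN0]
    linarith
  obtain ⟨K₀, hK₀⟩ := exists_nat_ge (A + 12 * N)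
  refine ⟨15 * B * C, N, K₀, by positivity, hN1, ?_, ?_⟩
  · have : (1 : ℝ) ≤ K₀ := by linarith
    exact_mod_cast this
  intro φ hφ W hW K R hK hR hRK hKR i hi j hj m hm1 hm2 hTm e α β he S hS hconv hcl
  have hKK : (K₀ : ℝ) ≤ K := by exact_mod_cast hK
  have hKA : A ≤ K := by linarith
  have hK12 : 12 * (N : ℝ) ≤ K := by linarith
  have hK0 : (0 : ℝ) < K := by linarith
  have hR0 : (0 : ℝ) < R := by linarith
  set y : ℝ := (R / (K : ℝ) ^ 5) ^ (1 / 62 : ℝ) with hy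
  have hy0 : 0 < y := Real.rpow_pos_of_pos (by positivity) _
  rcases S.eq_empty_or_nonempty with hem | hne
  · rw [hem, sum_empty, norm_zero]
    positivity
  obtain ⟨a, n, hSa⟩ := ordconn hconv hne
  have haS : a ∈ S := by rw [hSa, mem_Ico]; omega
  have hbS : a + n ∈ S := by rw [hSa, mem_Ico]; omega
  have ha1 := mem_Ico.1 (hS haS)
  have hb1 := mem_Ico.1 (hS hbS)
  have haK : (K : ℝ) ≤ a := by exact_mod_cast ha1.1
  have ha0 : (0 : ℝ) < a := by linarith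
  have hm1' : (2 : ℝ) ≤ m := by exact_mod_cast hm1
  have hm2' : (m : ℝ) ≤ 6 := by exact_mod_cast hm2
  have hjN : (j : ℝ) / N ≤ 1 := by
    rw [div_le_one hN0]
    exact_mod_cast hj
  have hj0 : 0 ≤ (j : ℝ) / N := by positivity
  -- the slopes
  have hslope : ∀ x : ℝ, (a : ℝ) ≤ x → x ≤ ((a + n + 1 : ℕ) : ℝ) → |(m : ℝ) + e / x - (j : ℝ) / N| ≤ 2 / N := by
    intro x hx1 hx2
    have hx0 : 0 ≤ x := ha0.le.trans hx1
    obtain ⟨p, hpS, hp1, hp2⟩ : ∃ p : ℕ, p ∈ S ∧ (p : ℝ) ≤ x ∧ x - p ≤ 1 := by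
      rcases Nat.lt_or_ge (a + n) ⌊x⌋₊ with h | h
      · refine ⟨a + n, hbS, ?_, ?_⟩
        · refine le_trans ?_ (Nat.floor_le hx0)
          exact_mod_cast h.le
        · push_cast at hx2 ⊢
          linarith
      · refine ⟨⌊x⌋₊, ?_, Nat.floor_le hx0, ?_⟩
        · rw [hSa, mem_Ico]
          exact ⟨Nat.le_floor hx1, by omega⟩
        · linarith [(Nat.lt_floor_add_one x).le]
    have h1 := hcl p hpS
    have hpK : (K : ℝ) ≤ p := by exact_mod_cast (mem_Ico.1 (hS hpS)).1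
    have hp0 : (0 : ℝ) < p := by linarith
    have hxp : 0 < x := by linarith
    have h2 : |e / x - e / p| ≤ 1 / N := by
      have e1 : e / x - e / p = -(e * ((x - p) / (x * p))) := by
        field_simp
        ring
      rw [e1, abs_neg, abs_mul, abs_of_nonneg (div_nonneg (by linarith) (by positivity) : 0 ≤ (x - p) / (x * p))]
      have e2 : (x - p) / (x * p) ≤ 1 / (K * K) := by
        refine div_le_div₀ zero_le_one hp2 (by positivity) ?_
        exact mul_le_mul (hpK.trans hp1) hpK hK0.le (by positivity)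
      calc |e| * ((x - p) / (x * p)) ≤ 12 * K * (1 / (K * K)) :=
            mul_le_mul he e2 (div_nonneg (by linarith) (by positivity)) (by positivity)
        _ = 12 / K := by field_simp
        _ ≤ 1 / N := by
          rw [div_le_div_iff₀ hK0 hN0]
          linarith
    have e3 : (m : ℝ) + e / x - (j : ℝ) / N = ((m : ℝ) + e / p - (j : ℝ) / N) + (e / x - e / p) := by ring
    rw [e3]
    have h4 := abs_add_le ((m : ℝ) + e / p - (j : ℝ) / N) (e / x - e / p)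
    have h5 : (2 : ℝ) / N = 1 / N + 1 / N := by ring
    linarith
  have h2N : 2 / (N : ℝ) ≤ 1 := by
    rw [div_le_one hN0]
    exact hN2
  have hTT : ∀ x : ℝ, (a : ℝ) ≤ x → x ≤ ((a + n + 1 : ℕ) : ℝ) →
      |TT φ m (m + e / x)| ≤ 3 * 10 ^ 6 * B ∧ |TT φ m (m + e / x) - TT φ m ((j : ℝ) / N)| ≤ c₁ / 5 := by
    intro x hx1 hx2
    have h1 := hslope x hx1 hx2
    have h2 := abs_le.1 h1
    have h3 : |(m : ℝ) + e / x| ≤ 2 := abs_le.2 ⟨by linarith, by linarith⟩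
    have h4 : |(j : ℝ) / N| ≤ 2 := abs_le.2 ⟨by linarith, by linarith⟩
    refine ⟨TT_bd hφ hm1' hm2' h3, ?_⟩
    refine (TT_lip hφ hm1' hm2' h3 h4 (h1.trans hNδ)).trans ?_
    have h5 : 4 * 10 ^ 6 * B * |(m : ℝ) + e / x - (j : ℝ) / N| ≤ 4 * 10 ^ 6 * B * (2 / N) :=
      mul_le_mul_of_nonneg_left h1 (by positivity)
    linarith
  have hx5 : ∀ x : ℝ, (a : ℝ) ≤ x → x ≤ ((a + n + 1 : ℕ) : ℝ) → (K : ℝ) ^ 5 ≤ x ^ 5 ∧ x ^ 5 ≤ 32 * (K : ℝ) ^ 5 := by
    intro x hx1 hx2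
    have h1 : x ≤ 2 * K := by
      refine hx2.trans ?_
      exact_mod_cast (show a + n + 1 ≤ 2 * K by omega)
    constructor
    · exact pow_le_pow_left₀ hK0.le (haK.trans hx1) 5
    · have := pow_le_pow_left₀ (ha0.le.trans hx1) h1 5
      refine this.trans_eq ?_
      ring
  -- the size of the sixth derivative
  have hsize : ∀ (ρ T x : ℝ), 0 < ρ → (a : ℝ) ≤ x → x ≤ ((a + n + 1 : ℕ) : ℝ) → c₁ / 5 ≤ T → T ≤ 3 * 10 ^ 6 * B →
      ρ / (K : ℝ) ^ 5 / A ≤ ρ * T / x ^ 5 ∧ ρ * T / x ^ 5 ≤ A * (3 * 10 ^ 6 * B) * (ρ / (K : ℝ) ^ 5 / A) := by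
    intro ρ T x hρ hx1 hx2 hT1 hT2
    obtain ⟨h1, h2⟩ := hx5 x hx1 hx2
    have hx0 : 0 < x := ha0.trans_le hx1
    have hT0 : 0 < T := lt_of_lt_of_le (by positivity) hT1
    constructor
    · rw [div_div, div_le_div_iff₀ (by positivity) (by positivity)]
      have h3 : 160 ≤ A * c₁ := by
        rw [div_le_iff₀ hc] at hA2
        exact hA2
      have h4 : 32 ≤ T * A := by
        calc (32 : ℝ) = 160 / 5 := by norm_num
          _ ≤ A * c₁ / 5 := div_le_div_of_nonneg_right h3 (by norm_num)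
          _ = c₁ / 5 * A := by ring
          _ ≤ T * A := mul_le_mul_of_nonneg_right hT1 hA0.le
      calc ρ * x ^ 5 ≤ ρ * (32 * (K : ℝ) ^ 5) := mul_le_mul_of_nonneg_left h2 hρ.le
        _ = ρ * (K : ℝ) ^ 5 * 32 := by ring
        _ ≤ ρ * (K : ℝ) ^ 5 * (T * A) := mul_le_mul_of_nonneg_left h4 (by positivity)
        _ = ρ * T * ((K : ℝ) ^ 5 * A) := by ring
    · have e1 : A * (3 * 10 ^ 6 * B) * (ρ / (K : ℝ) ^ 5 / A) = ρ * (3 * 10 ^ 6 * B) / (K : ℝ) ^ 5 := by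
        field_simp
      rw [e1]
      refine div_le_div₀ (by positivity) ?_ (by positivity) h1
      exact mul_le_mul_of_nonneg_left hT2 hρ.le
  set f : ℕ → ℝ := fun x => R * ((x : ℝ) * φ (m + e / x)) + (α * x + β) with hf
  have ha0' : 0 < a := by
    have : (0 : ℝ) < a := ha0
    exact_mod_cast this
  have hM0 : 0 ≤ C * (K * y) := by positivity
  -- the sums without weights
  have hSm : ∀ b', a ≤ b' → b' ≤ a + n + 1 → ‖∑ x ∈ Ico a b', Pool.Agent.Helper22.AE.ee (f x)‖ ≤ C * (K * y) := by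
    intro b' _ hb'
    have hb'' : (b' : ℝ) ≤ ((a + n + 1 : ℕ) : ℝ) := by exact_mod_cast hb'
    have e0 : ∑ x ∈ Ico a b', Pool.Agent.Helper22.AE.ee (f x) = Sm f a b' := by
      unfold Sm
      exact sum_congr rfl fun x _ => ee_eq _
    rw [e0]
    rcases le_total 0 (TT φ m ((j : ℝ) / N)) with h0 | h0
    · rw [abs_of_nonneg h0] at hTm
      refine hl f a b' K R hKA hR hRK hKR (by omega) ?_
      refine cnd_line hφ.sm m e R α β ha0' ?_
      intro x hx1 hx2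
      obtain ⟨h1, h2⟩ := hTT x hx1 (hx2.trans hb'')
      have h3 := abs_le.1 h2
      exact hsize R _ x hR0 hx1 (hx2.trans hb'') (by linarith [h3.1]) ((le_abs_self _).trans h1)
    · rw [abs_of_nonpos h0] at hTm
      rw [← Sm_neg]
      have h6 : (fun x => -f x) = fun x : ℕ => (-R) * ((x : ℝ) * φ (m + e / x)) + ((-α) * x + (-β)) := by
        funext x
        rw [hf]
        ring
      rw [h6]
      refine hl _ a b' K R hKA hR hRK hKR (by omega) ?_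
      refine cnd_line hφ.sm m e (-R) (-α) (-β) ha0' ?_
      intro x hx1 hx2
      obtain ⟨h1, h2⟩ := hTT x hx1 (hx2.trans hb'')
      have h3 := abs_le.1 h2
      have h4 := hsize R (-TT φ m (m + e / x)) x hR0 hx1 (hx2.trans hb'') (by linarith [h3.2]) ((neg_le_abs _).trans h1)
      have e5 : -R * TT φ m (m + e / x) / x ^ 5 = R * (-TT φ m (m + e / x)) / x ^ 5 := by ring
      rw [e5]
      exact h4
  -- the weights
  set w : ℕ → ℂ := fun x => (((K : ℝ) / (x : ℝ) : ℝ) : ℂ) ^ i * W (m + e / x) with hw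
  have hKx : ∀ x : ℕ, a ≤ x → (K : ℝ) ≤ x := fun x hx => haK.trans (by exact_mod_cast hx)
  have hr1 : ∀ x : ℕ, a ≤ x → ‖(((K : ℝ) / (x : ℝ) : ℝ) : ℂ)‖ ≤ 1 := by
    intro x hx
    have h1 := hKx x hx
    rw [Complex.norm_real, Real.norm_eq_abs, abs_of_nonneg (by positivity)]
    rw [div_le_one (by linarith)]
    exact h1
  have hwB : ∀ x, a ≤ x → x ≤ a + n → ‖w x‖ ≤ B := by
    intro x hx _
    rw [hw]
    simp only
    rw [norm_mul, norm_pow]
    calc ‖(((K : ℝ) / (x : ℝ) : ℝ) : ℂ)‖ ^ i * ‖W (m + e / x)‖ ≤ 1 * B :=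
          mul_le_mul (pow_le_one₀ (norm_nonneg _) (hr1 x hx)) (hW.wb _) (norm_nonneg _) zero_le_one
      _ = B := one_mul B
  have hwV : ∀ x, a ≤ x → x < a + n → ‖w (x + 1) - w x‖ ≤ 14 * B / K := by
    intro x hx _
    have hx1 := hKx x hx
    have hx0 : (0 : ℝ) < x := by linarith
    set p : ℂ := (((K : ℝ) / ((x + 1 : ℕ) : ℝ) : ℝ) : ℂ) with hp
    set q : ℂ := (((K : ℝ) / (x : ℝ) : ℝ) : ℂ) with hq
    have hp1 : ‖p‖ ≤ 1 := hr1 (x + 1) (by omega)
    have hq1 : ‖q‖ ≤ 1 := hr1 x hx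
    have hd := inv_diff92 hK0 hx1
    have hpq : ‖p - q‖ ≤ 1 / K := by
      have e1 : p - q = (((K : ℝ) * (1 / ((x : ℝ) + 1) - 1 / x) : ℝ) : ℂ) := by
        rw [hp, hq]
        push_cast
        ring
      rw [e1, Complex.norm_real, Real.norm_eq_abs, abs_mul, abs_of_pos hK0]
      calc (K : ℝ) * |1 / ((x : ℝ) + 1) - 1 / x| ≤ K * (1 / K ^ 2) := mul_le_mul_of_nonneg_left hd hK0.le
        _ = 1 / K := by field_simp
    have hpi : ‖p ^ i - q ^ i‖ ≤ 2 / K := by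
      have h2K : (0 : ℝ) ≤ 2 / K := by positivity
      have h12 : 1 / (K : ℝ) ≤ 2 / K := div_le_div_of_nonneg_right (by norm_num) hK0.le
      interval_cases i
      · simpa using h2K
      · rw [pow_one, pow_one]
        exact hpq.trans h12
      · have e2 : p ^ 2 - q ^ 2 = (p - q) * (p + q) := by ring
        rw [e2, norm_mul]
        have h3 : ‖p + q‖ ≤ 2 := (norm_add_le _ _).trans (by linarith)
        calc ‖p - q‖ * ‖p + q‖ ≤ 1 / K * 2 := mul_le_mul hpq h3 (norm_nonneg _) (by positivity)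
          _ = 2 / K := by ring
    have hWd : ‖W (m + e / ((x + 1 : ℕ) : ℝ)) - W (m + e / x)‖ ≤ 12 * B / K := by
      refine (hW.wl _ _).trans ?_
      have e3 : (m : ℝ) + e / ((x + 1 : ℕ) : ℝ) - (m + e / x) = e * (1 / ((x : ℝ) + 1) - 1 / x) := by
        push_cast
        ring
      rw [e3, abs_mul]
      calc B * (|e| * |1 / ((x : ℝ) + 1) - 1 / x|) ≤ B * (12 * K * (1 / K ^ 2)) :=
            mul_le_mul_of_nonneg_left (mul_le_mul he hd (abs_nonneg _) (by positivity)) hB0.le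
        _ = 12 * B / K := by
          field_simp
    have e4 : w (x + 1) - w x = (p ^ i - q ^ i) * W (m + e / ((x + 1 : ℕ) : ℝ)) +
        q ^ i * (W (m + e / ((x + 1 : ℕ) : ℝ)) - W (m + e / x)) := by
      rw [hw]
      simp only [← hp, ← hq]
      ring
    rw [e4]
    have h5 : ‖(p ^ i - q ^ i) * W (m + e / ((x + 1 : ℕ) : ℝ))‖ ≤ 2 / K * B := by
      rw [norm_mul]
      exact mul_le_mul hpi (hW.wb _) (norm_nonneg _) (by positivity)
    have h6 : ‖q ^ i * (W (m + e / ((x + 1 : ℕ) : ℝ)) - W (m + e / x))‖ ≤ 1 * (12 * B / K) := by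
      rw [norm_mul, norm_pow]
      exact mul_le_mul (pow_le_one₀ (norm_nonneg _) hq1) hWd (norm_nonneg _) zero_le_one
    calc _ ≤ _ := norm_add_le _ _
      _ ≤ 2 / K * B + 1 * (12 * B / K) := add_le_add h5 h6
      _ = 14 * B / K := by ring
  have hfin := abel_bv w (fun x => Pool.Agent.Helper22.AE.ee (f x)) (a := a) n hwB hwV hSm
  have e9 : ∑ x ∈ S, tl K i W φ R m e α β x = ∑ x ∈ Ico a (a + n + 1), w x * Pool.Agent.Helper22.AE.ee (f x) := by
    rw [hSa]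
    rfl
  rw [e9]
  refine hfin.trans ?_
  have hnK : (n : ℝ) ≤ K := by
    exact_mod_cast (show n ≤ K by omega)
  have h7 : (n : ℝ) * (14 * B / K) ≤ 14 * B := by
    calc (n : ℝ) * (14 * B / K) ≤ K * (14 * B / K) := mul_le_mul_of_nonneg_right hnK (by positivity)
      _ = 14 * B := by field_simp
  calc (B + n * (14 * B / K)) * (C * (K * y)) ≤ (15 * B) * (C * (K * y)) :=
        mul_le_mul_of_nonneg_right (by linarith) hM0
    _ = 15 * B * C * (K * y) := by ring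

end Pool.Agent.Helper92.OV6
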