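import Pool.Agent.Helper92.OV6.Oct
import Pool.Agent.Helper92.OV6.Cond
import Pool.Agent.Helper76.OV.Fin

/-!
# Project OV6 (MP_fb29e9_nt): exponent 263/421 for all ovals with support function of class C⁷

`octU`: the octant sums are `O(X^(263/421 - 1/2 + e) K^(3/2))` for all `K ≤ X^(376/1000)`: trivially for `K ≤ X^(105/421)`, by `oct6g` (sixth derivatives) for
`X^(105/421) ≤ K ≤ X^(109/421)` and by `oct_all` (helper76) for `K ≥ X^(109/421)`. `main7`: as `main_of_oct` (helper22) with `τ = 158/421`.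
-/

open MeasureTheory Real Set Filter Topology

set_option autoImplicit false

namespace Pool.Agent.Helper92.OV6

open Pool.Agent.Helper22.AE
open Pool.Agent.Helper22.AC (cntc ga)
open Pool.Agent.Helper92.GC (dt sqa oct)
open Pool.Agent.Helper22.OV (Cond osum oph owt gam bsg ov_cond gen_blocks ft_gen rho_bd_o3 rho_per_o3 ga_per_o3 cntc_bdd sqa_oct_gen)
open Pool.Agent.Helper76.OV (Cw os)

/-- range (A) -/
private lemma rA92 {e X K : ℝ} (he : 0 < e) (hX : 1 ≤ X) (hK1 : 1 ≤ K) (hK : K ≤ X ^ (105 / 421 : ℝ)) :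
    K ^ 2 ≤ X ^ (263 / 421 - 1 / 2 + e) * K ^ (3 / 2 : ℝ) := by
  have hX0 : 0 < X := by linarith
  have hK0 : 0 < K := by linarith
  obtain ⟨x, rfl⟩ : ∃ x, X = exp x := ⟨log X, (exp_log hX0).symm⟩
  obtain ⟨k, rfl⟩ : ∃ k, K = exp k := ⟨log K, (exp_log hK0).symm⟩
  have hx : 0 ≤ x := one_le_exp_iff.1 hX
  have hk : 0 ≤ k := one_le_exp_iff.1 hK1
  rw [← exp_mul, exp_le_exp] at hK
  have hp : 0 ≤ e * x := mul_nonneg he.le hx
  have e1 : exp k ^ 2 = exp (2 * k) := by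
    rw [← exp_nat_mul]
    norm_num
  rw [e1, ← exp_mul, ← exp_mul, ← exp_add]
  refine exp_le_exp.2 ?_
  nlinarith

/-- range (B) -/
private lemma rB92 {e C X R K : ℝ} (he : 0 < e) (hC : 0 < C) (hX : 1 ≤ X) (hR0 : 0 < R) (hR : R ≤ 4 * X) (hK1 : 1 ≤ K)
    (hK : K ≤ X ^ (109 / 421 : ℝ)) :
    C * (K ^ 2 * (R / K ^ 5) ^ (1 / 62 : ℝ)) ≤ 2 * C * (X ^ (263 / 421 - 1 / 2 + e) * K ^ (3 / 2 : ℝ)) := by
  have hX0 : 0 < X := by linarith
  have hK0 : 0 < K := by linarith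
  have h4 : (R / K ^ 5) ^ (1 / 62 : ℝ) ≤ 2 * (X / K ^ 5) ^ (1 / 62 : ℝ) := by
    have h1 : (R / K ^ 5) ^ (1 / 62 : ℝ) ≤ (4 * (X / K ^ 5)) ^ (1 / 62 : ℝ) := by
      refine rpow_le_rpow (by positivity) ?_ (by norm_num)
      rw [← mul_div_assoc]
      gcongr
    rw [mul_rpow (by norm_num) (by positivity)] at h1
    have h2 : (4 : ℝ) ^ (1 / 62 : ℝ) ≤ 2 := by
      have h3 : (4 : ℝ) ^ (1 / 62 : ℝ) ≤ 4 ^ (1 / 2 : ℝ) := rpow_le_rpow_of_exponent_le (by norm_num) (by norm_num)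
      have h5 : (4 : ℝ) ^ (1 / 2 : ℝ) = 2 := by
        rw [show (4 : ℝ) = 2 ^ (2 : ℝ) by norm_num, ← rpow_mul (by norm_num)]
        norm_num
      linarith
    exact h1.trans (mul_le_mul_of_nonneg_right h2 (by positivity))
  have h5 : K ^ 2 * (X / K ^ 5) ^ (1 / 62 : ℝ) ≤ X ^ (263 / 421 - 1 / 2 + e) * K ^ (3 / 2 : ℝ) := by
    clear h4 hR
    obtain ⟨x, rfl⟩ : ∃ x, X = exp x := ⟨log X, (exp_log hX0).symm⟩
    obtain ⟨k, rfl⟩ : ∃ k, K = exp k := ⟨log K, (exp_log hK0).symm⟩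
    have hx : 0 ≤ x := one_le_exp_iff.1 hX
    have hk : 0 ≤ k := one_le_exp_iff.1 hK1
    rw [← exp_mul, exp_le_exp] at hK
    have hp : 0 ≤ e * x := mul_nonneg he.le hx
    have e1 : exp k ^ 2 = exp (2 * k) := by
      rw [← exp_nat_mul]
      norm_num
    have e5 : exp x / exp k ^ 5 = exp (x - 5 * k) := by
      rw [exp_sub, ← exp_nat_mul]
      norm_num
    rw [e1, e5, ← exp_mul, ← exp_mul, ← exp_mul, ← exp_add, ← exp_add]
    refine exp_le_exp.2 ?_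
    nlinarith
  calc C * (K ^ 2 * (R / K ^ 5) ^ (1 / 62 : ℝ)) ≤ C * (K ^ 2 * (2 * (X / K ^ 5) ^ (1 / 62 : ℝ))) := by gcongr
    _ = 2 * C * (K ^ 2 * (X / K ^ 5) ^ (1 / 62 : ℝ)) := by ring
    _ ≤ 2 * C * (X ^ (263 / 421 - 1 / 2 + e) * K ^ (3 / 2 : ℝ)) := by gcongr

/-- range (C) -/
private lemma rC92 {e C X K : ℝ} (hC : 0 < C) (hX : 1 ≤ X) (hK1 : 1 ≤ K)
    (hK : X ^ (109 / 421 : ℝ) ≤ K) :
    C * X ^ e * K ^ (4 / 3 : ℝ) * (X * K) ^ (2 / 15 : ℝ) ≤ C * (X ^ (263 / 421 - 1 / 2 + e) * K ^ (3 / 2 : ℝ)) := by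
  have hX0 : 0 < X := by linarith
  have hK0 : 0 < K := by linarith
  obtain ⟨x, rfl⟩ : ∃ x, X = exp x := ⟨log X, (exp_log hX0).symm⟩
  obtain ⟨k, rfl⟩ : ∃ k, K = exp k := ⟨log K, (exp_log hK0).symm⟩
  have hx : 0 ≤ x := one_le_exp_iff.1 hX
  have hk : 0 ≤ k := one_le_exp_iff.1 hK1
  rw [← exp_mul, exp_le_exp] at hK
  rw [← exp_add]
  simp only [← exp_mul]
  rw [mul_assoc, mul_assoc, ← exp_add, ← exp_add, ← exp_add]
  refine mul_le_mul_of_nonneg_left (exp_le_exp.2 ?_) hC.le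
  nlinarith

private lemma large92 : ∃ X₁ : ℝ, 1 ≤ X₁ ∧ ∀ X R K : ℝ, X₁ ≤ X → X / 4 ≤ R → R ≤ 4 * X → 1 ≤ K → X ^ (105 / 421 : ℝ) ≤ K →
    K ≤ X ^ (109 / 421 : ℝ) → 1 ≤ R ∧ R ≤ K ^ 5 ∧ K ^ 49 ≤ R ^ 16 := by
  have ht1 := (tendsto_rpow_atTop (show (0 : ℝ) < 104 / 421 by norm_num)).eventually_ge_atTop 4
  have ht2 := (tendsto_rpow_atTop (show (0 : ℝ) < 1395 / 421 by norm_num)).eventually_ge_atTop ((4 : ℝ) ^ 16)
  obtain ⟨A, hA⟩ := (ht1.and ht2).exists_forall_of_atTop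
  refine ⟨max A 4, le_trans (by norm_num) (le_max_right _ _), ?_⟩
  intro X R K hX hR hR4 hK1 hKl hKu
  have hX4 : 4 ≤ X := (le_max_right _ _).trans hX
  have hX0 : 0 < X := by linarith
  have hX1 : 1 ≤ X := by linarith
  have hK0 : 0 < K := by linarith
  obtain ⟨h1, h2⟩ := hA X ((le_max_left _ _).trans hX)
  refine ⟨by linarith, ?_, ?_⟩
  · have h3 : (X ^ (105 / 421 : ℝ)) ^ 5 ≤ K ^ 5 := pow_le_pow_left₀ (by positivity) hKl 5
    have h4 : (X ^ (105 / 421 : ℝ)) ^ 5 = X ^ (104 / 421 : ℝ) * X := by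
      rw [← rpow_natCast, ← rpow_mul hX0.le]
      nth_rewrite 3 [← rpow_one X]
      rw [← rpow_add hX0]
      norm_num
    have h5 : 4 * X ≤ X ^ (104 / 421 : ℝ) * X := mul_le_mul_of_nonneg_right h1 hX0.le
    linarith
  · have h3 : K ^ 49 ≤ (X ^ (109 / 421 : ℝ)) ^ 49 := pow_le_pow_left₀ hK0.le hKu 49
    have h4 : (X ^ (109 / 421 : ℝ)) ^ 49 * X ^ (1395 / 421 : ℝ) = X ^ 16 := by
      rw [← rpow_natCast, ← rpow_mul hX0.le, ← rpow_add hX0, ← rpow_natCast]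
      norm_num
    have h5 : (X ^ (109 / 421 : ℝ)) ^ 49 * 4 ^ 16 ≤ X ^ 16 := by
      rw [← h4]
      exact mul_le_mul_of_nonneg_left h2 (by positivity)
    have h6 : (X / 4) ^ 16 ≤ R ^ 16 := pow_le_pow_left₀ (by positivity) hR 16
    have h7 : (X / 4) ^ 16 = X ^ 16 / 4 ^ 16 := div_pow _ _ _
    have h8 : (X ^ (109 / 421 : ℝ)) ^ 49 ≤ X ^ 16 / 4 ^ 16 := (le_div_iff₀ (by positivity)).2 h5
    linarith

/-- the octant sums, all `K ≤ X^(376/1000)` -/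
theorem octU {e c₁ B δ : ℝ} (he : 0 < e) (he1 : e ≤ 1 / 1000) (hc : 0 < c₁) (hB : 1 ≤ B) (hδ : 0 < δ) : ∃ C X₁ : ℝ, 0 < C ∧ 1 ≤ X₁ ∧
    ∀ (φ : ℝ → ℝ) (W : ℝ → ℂ), Cond c₁ B φ W → C6 c₁ B δ φ → ∀ (X R : ℝ) (K : ℕ), X₁ ≤ X → X ≤ R → R ≤ 2 * X → 1 ≤ K →
      (K : ℝ) ≤ X ^ (376 / 1000 : ℝ) → ∀ i : ℕ, (i = 1 ∨ i = 2) → ∀ c : ℝ × ℝ,
        ‖osum K i W φ R c‖ ≤ C * (X ^ (263 / 421 - 1 / 2 + e) * (K : ℝ) ^ (3 / 2 : ℝ)) := by
  obtain ⟨C1, hC1, h6⟩ := oct6g hc hB hδ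
  obtain ⟨C2, hC2, h0⟩ := Pool.Agent.Helper76.OV.oct_all e c₁ B he he1 hc hB
  obtain ⟨X1, hX1, hlarge⟩ := large92
  refine ⟨25 * B + 2 * C1 + C2, X1, by positivity, hX1, ?_⟩
  intro φ W hφ hφ6 X R K hX hR hR2 hK hKu i hi c
  have hXX : 1 ≤ X := hX1.trans hX
  have hX0 : 0 < X := by linarith
  have hR0 : 0 < R := by linarith
  have hK1 : (1 : ℝ) ≤ K := by exact_mod_cast hK
  have hK0 : (0 : ℝ) < K := by linarith
  have hW : Cw B W := ⟨hφ.wb, hφ.wl⟩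
  have heq : osum K i W φ R c = os (oct K) K i W φ R c := rfl
  set T : ℝ := X ^ (263 / 421 - 1 / 2 + e) * (K : ℝ) ^ (3 / 2 : ℝ) with hT
  have hT0 : 0 < T := by positivity
  have hp1 : 0 ≤ 25 * B * T := by positivity
  have hp2 : 0 ≤ 2 * C1 * T := by positivity
  have hp3 : 0 ≤ C2 * T := by positivity
  have hsum : (25 * B + 2 * C1 + C2) * T = 25 * B * T + 2 * C1 * T + C2 * T := by ring
  rw [hsum]
  rcases le_total (K : ℝ) (X ^ (105 / 421 : ℝ)) with hA | hA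
  · have h1 := rA92 he hXX hK1 hA
    have h2 : ‖osum K i W φ R c‖ ≤ 25 * B * (K : ℝ) ^ 2 := by
      rw [heq]
      exact os_triv (by linarith) hφ.wb hK c
    have h3 : 25 * B * (K : ℝ) ^ 2 ≤ 25 * B * T := mul_le_mul_of_nonneg_left h1 (by positivity)
    linarith
  rcases le_total (X ^ (109 / 421 : ℝ)) (K : ℝ) with hBB | hBB
  · have hl : X ^ (1 / 4 + e) ≤ (K : ℝ) := (rpow_le_rpow_of_exponent_le hXX (by linarith)).trans hBB
    have h1 := h0 φ W hφ X R K hXX hR hR2 hl hKu i hi c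
    have h2 := rC92 (e := e) hC2 hXX hK1 hBB
    rw [← hT] at h2
    linarith
  · obtain ⟨a1, a2, a3⟩ := hlarge X R K hX (by linarith) (by linarith) hK1 hA hBB
    have h1 := h6 φ hφ6 W hW R K a1 hK a2 a3 i (by rcases hi with rfl | rfl <;> norm_num) c
    rw [← heq] at h1
    have h2 := rB92 he hC1 hXX hR0 (by linarith : R ≤ 4 * X) hK1 hBB
    rw [← hT] at h2
    linarith

private lemma blk92 {ε C M X K : ℝ} (hε : 0 < ε) (hX : 1 ≤ X) (hK1 : 1 ≤ K) (hC : 0 < C) (hM : 0 ≤ M) :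
    X ^ (1 / 2 : ℝ) * K ^ (-(3 / 2) : ℝ) * (8 * (C * (X ^ (263 / 421 - 1 / 2 + ε / 8) * K ^ (3 / 2 : ℝ))) + 16 * K * M) ≤
      (8 * C + 16 * M) * X ^ (263 / 421 + ε / 2) := by
  have hX0 : 0 < X := by linarith
  have hK0 : 0 < K := by linarith
  obtain ⟨x, rfl⟩ : ∃ x, X = exp x := ⟨log X, (exp_log hX0).symm⟩
  obtain ⟨k, rfl⟩ : ∃ k, K = exp k := ⟨log K, (exp_log hK0).symm⟩
  have hx : 0 ≤ x := one_le_exp_iff.1 hX
  have hk : 0 ≤ k := one_le_exp_iff.1 hK1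
  have hp : 0 ≤ ε * x := mul_nonneg hε.le hx
  simp only [← exp_mul]
  have e1 : exp (x * (1 / 2)) * exp (k * -(3 / 2)) * (8 * (C * (exp (x * (263 / 421 - 1 / 2 + ε / 8)) * exp (k * (3 / 2)))) +
      16 * exp k * M) =
      8 * C * exp (x * (1 / 2) + k * -(3 / 2) + x * (263 / 421 - 1 / 2 + ε / 8) + k * (3 / 2)) +
        16 * M * exp (x * (1 / 2) + k * -(3 / 2) + k) := by
    simp only [exp_add]
    ring
  rw [e1]
  have h3 : exp (x * (1 / 2) + k * -(3 / 2) + x * (263 / 421 - 1 / 2 + ε / 8) + k * (3 / 2)) ≤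
      exp (x * (263 / 421 + ε / 2)) := by
    rw [exp_le_exp]
    nlinarith
  have h5 : exp (x * (1 / 2) + k * -(3 / 2) + k) ≤ exp (x * (263 / 421 + ε / 2)) := by
    rw [exp_le_exp]
    nlinarith
  have h6 := mul_le_mul_of_nonneg_left h3 (show 0 ≤ 8 * C by positivity)
  have h7 := mul_le_mul_of_nonneg_left h5 (show 0 ≤ 16 * M by positivity)
  linarith

private theorem main92 {H : ℝ → ℝ} (hH : IsSupp H) (h7 : ContDiff ℝ 7 H) {ε : ℝ} (hε : 0 < ε)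
    (hε1 : ε ≤ 1 / 1000) : ∃ C : ℝ, ∀ R : ℝ, 1 ≤ R →
    ∀ c : ℝ × ℝ, |cntc H c R - area H * R ^ 2| ≤ C * R ^ (263 / 421 + ε) := by
  obtain ⟨α₀, η₀, c₁, B₀, hα₀, hα₁, hη₀, hc₁, hB₀, hcond⟩ := ov_cond hH (h7.of_le (by norm_num))
  obtain ⟨B6, δ, hB6, hδ, hcond6⟩ := cond6 h7 hc₁
  set Bm : ℝ := max B₀ B6 with hBm
  have hBm1 : 1 ≤ Bm := hB₀.trans (le_max_left _ _)
  obtain ⟨C1, R1', hR1', hblocks⟩ := gen_blocks hH (τ := 158 / 421) (e2 := ε / 8) (by norm_num) (by norm_num)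
    (by linarith)
  obtain ⟨C2, hC2, hft⟩ := ft_gen hH hα₀ hα₁
  obtain ⟨C3, X1, hC3, hX1, hoct⟩ := octU (e := ε / 8) (by linarith) (by linarith) hc₁ hBm1 hδ
  obtain ⟨Mr, hMr1, hMr⟩ := rho_bd_o3 hH
  set η₁ : ℝ := min η₀ 1 with hη₁d
  have hη₁ : 0 < η₁ := lt_min hη₀ one_pos
  set R1 : ℝ := max (max R1' (1 / η₁)) X1 with hR1d
  have hR1 : 0 < R1 := lt_max_of_lt_left (lt_max_of_lt_left hR1')
  obtain ⟨C4, hbdd⟩ := cntc_bdd hH R1
  refine ⟨|C1| + (8 / ε + 1) * (C2 * (8 * C3 + 16 * Mr + 1)) + |C4|, ?_⟩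
  intro X hX c
  have hMr0 : 0 ≤ Mr := by linarith
  have hX0 : 0 < X := by linarith
  have hbig : 1 ≤ X ^ (263 / 421 + ε) := one_le_rpow hX (by linarith)
  have hc1 : 0 ≤ |C1| := abs_nonneg _
  have hc4 : 0 ≤ |C4| := abs_nonneg _
  have hc2 : 0 ≤ (8 / ε + 1) * (C2 * (8 * C3 + 16 * Mr + 1)) := by positivity
  rcases le_total X R1 with hXR | hXR
  · refine (hbdd X hX hXR c).trans ((le_abs_self _).trans ?_)
    nlinarith
  have hXR' : R1' ≤ X := ((le_max_left _ _).trans (le_max_left _ _)).trans hXR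
  have hXη : 1 / η₁ ≤ X := ((le_max_right _ _).trans (le_max_left _ _)).trans hXR
  have hXX1 : X1 ≤ X := (le_max_right _ _).trans hXR
  -- the number of blocks
  have hl2 : 0 < log 2 := log_pos (by norm_num)
  have hlX : 0 ≤ log X := log_nonneg hX
  set n1 : ℕ := ⌈(158 / 421 + ε / 8) * (log X / log 2)⌉₊ with hn1
  have hpow : X ^ (158 / 421 + ε / 8) = (2 : ℝ) ^ ((158 / 421 + ε / 8) * (log X / log 2)) := by
    rw [rpow_def_of_pos hX0, rpow_def_of_pos (by norm_num : (0 : ℝ) < 2)]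
    congr 1
    field_simp
  have hn1a : X ^ (158 / 421 + ε / 8) ≤ 2 ^ n1 := by
    rw [hpow, ← rpow_natCast]
    exact rpow_le_rpow_of_exponent_le (by norm_num) (Nat.le_ceil _)
  have hn1b : ∀ n < n1, (2 : ℝ) ^ n ≤ X ^ (158 / 421 + ε / 8) := by
    intro n hn
    rw [hpow, ← rpow_natCast]
    exact rpow_le_rpow_of_exponent_le (by norm_num) (Nat.lt_ceil.1 hn).le
  have hn1c : (n1 : ℝ) ≤ (8 / ε + 1) * X ^ (ε / 4) := by
    have h1 : (n1 : ℝ) < (158 / 421 + ε / 8) * (log X / log 2) + 1 := Nat.ceil_lt_add_one (by positivity)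
    have h2 : log X ≤ X ^ (ε / 4) / (ε / 4) := log_le_rpow_div hX0.le (by linarith)
    have h3 : (1 : ℝ) / 2 < log 2 := by
      have := log_two_gt_d9
      linarith
    have h4 : log X / log 2 ≤ 2 * log X := by
      rw [div_le_iff₀ hl2]
      nlinarith
    have h5 : (158 / 421 + ε / 8) * (log X / log 2) ≤ 2 * log X := by
      have h6 : 0 ≤ log X / log 2 := by positivity
      nlinarith
    have h7 : 1 ≤ X ^ (ε / 4) := one_le_rpow hX (by linarith)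
    have h8 : 2 * (X ^ (ε / 4) / (ε / 4)) = 8 / ε * X ^ (ε / 4) := by
      field_simp
      ring
    calc (n1 : ℝ) ≤ 2 * log X + 1 := by linarith
      _ ≤ 8 / ε * X ^ (ε / 4) + X ^ (ε / 4) := by linarith
      _ = (8 / ε + 1) * X ^ (ε / 4) := by ring
  -- the bounds of the blocks
  set S : ℕ → ℝ := fun K => 8 * (C3 * (X ^ (263 / 421 - 1 / 2 + ε / 8) * (K : ℝ) ^ (3 / 2 : ℝ))) + 16 * K * Mr with hS
  set B : ℕ → ℝ := fun n => C2 * (X ^ (1 / 2 : ℝ) * ((2 ^ n : ℕ) : ℝ) ^ (-(3 / 2) : ℝ) * S (2 ^ n) + 1)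
    with hB
  have hK1 : ∀ n : ℕ, (1 : ℝ) ≤ ((2 ^ n : ℕ) : ℝ) := by
    intro n
    push_cast
    exact one_le_pow₀ (by norm_num)
  have hSnn : ∀ K : ℕ, 0 ≤ S K := by
    intro K
    simp only [hS]
    positivity
  have hmid : X ^ (158 / 421 + ε / 8) ≤ X ^ (376 / 1000 : ℝ) :=
    rpow_le_rpow_of_exponent_le hX (by linarith)
  have hBle : ∀ n ∈ Finset.range n1, B n ≤ C2 * (8 * C3 + 16 * Mr + 1) * X ^ (263 / 421 + ε / 2) := by
    intro n _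
    have h1 : X ^ (1 / 2 : ℝ) * ((2 ^ n : ℕ) : ℝ) ^ (-(3 / 2) : ℝ) * S (2 ^ n) ≤
        (8 * C3 + 16 * Mr) * X ^ (263 / 421 + ε / 2) := by
      simp only [hS]
      exact blk92 hε hX (hK1 n) hC3 hMr0
    have h2 : 1 ≤ X ^ (263 / 421 + ε / 2) := one_le_rpow hX (by linarith)
    calc B n ≤ C2 * ((8 * C3 + 16 * Mr) * X ^ (263 / 421 + ε / 2) + X ^ (263 / 421 + ε / 2)) :=
          mul_le_mul_of_nonneg_left (by linarith) hC2.le
      _ = C2 * (8 * C3 + 16 * Mr + 1) * X ^ (263 / 421 + ε / 2) := by ring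
  have hsum : ∑ n ∈ Finset.range n1, B n ≤
      (8 / ε + 1) * (C2 * (8 * C3 + 16 * Mr + 1)) * X ^ (263 / 421 + ε) := by
    refine (Finset.sum_le_sum hBle).trans ?_
    rw [Finset.sum_const, Finset.card_range, nsmul_eq_mul]
    have h3 : X ^ (ε / 4) * X ^ (263 / 421 + ε / 2) ≤ X ^ (263 / 421 + ε) := by
      rw [← rpow_add hX0]
      exact rpow_le_rpow_of_exponent_le hX (by linarith)
    calc (n1 : ℝ) * (C2 * (8 * C3 + 16 * Mr + 1) * X ^ (263 / 421 + ε / 2)) ≤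
        (8 / ε + 1) * X ^ (ε / 4) * (C2 * (8 * C3 + 16 * Mr + 1) * X ^ (263 / 421 + ε / 2)) :=
          mul_le_mul_of_nonneg_right hn1c (by positivity)
      _ = (8 / ε + 1) * (C2 * (8 * C3 + 16 * Mr + 1)) * (X ^ (ε / 4) * X ^ (263 / 421 + ε / 2)) := by ring
      _ ≤ _ := mul_le_mul_of_nonneg_left h3 hc2
  have hmain := hblocks X hXR' n1 hn1a B (by
    intro n hn R hR d hd hG c'
    have hR0 : 0 < R := by linarith [hR.1]
    have hdR' : |d / R| ≤ η₁ := by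
      rw [abs_div, abs_of_pos hR0, div_le_iff₀ hR0]
      have h1 : 1 ≤ η₁ * X := by
        rw [div_le_iff₀ hη₁] at hXη
        linarith
      have h2 : η₁ * X ≤ η₁ * R := mul_le_mul_of_nonneg_left hR.1 hη₁.le
      linarith
    have hdR : |d / R| ≤ η₀ := hdR'.trans (min_le_left _ _)
    have hdR1 : |d / R| ≤ 1 := hdR'.trans (min_le_right _ _)
    have hK : (((2 ^ n : ℕ) : ℝ)) ≤ X ^ (158 / 421 + ε / 8) := by
      push_cast
      exact hn1b n hn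
    have hphase : ∀ α : ℝ, |α| ≤ α₀ → ∀ (j : ℕ) (s : Bool), j < 4 → ∀ W : ℝ → ℂ, (∀ x, ‖W x‖ ≤ B₀) →
        (∀ x y, ‖W x - W y‖ ≤ B₀ * |x - y|) → Cond c₁ Bm (oph (gam H α (d / R)) j s) W ∧
          C6 c₁ Bm δ (oph (gam H α (d / R)) j s) := by
      intro α hα j s hj W hw1 hw2
      obtain ⟨k1, k2, k3, _⟩ := hcond α hα (d / R) hdR j s
      have hpi := Real.pi_lt_four
      have hα2 : |α| ≤ 2 := by linarith
      have k6 := hcond6 α (d / R) hα2 (by linarith) j s hj k2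
      have hBB : B₀ ≤ Bm := le_max_left _ _
      refine ⟨⟨k1, k2, fun x hx => (k3 x hx).1.trans hBB, fun x hx => (k3 x hx).2.1.trans hBB,
        fun x hx => (k3 x hx).2.2.trans hBB, fun x => (hw1 x).trans hBB, fun x y => (hw2 x y).trans ?_⟩,
        ⟨k6.sm, k6.lo, fun n h1 h2 x hx => (k6.hi n h1 h2 x hx).trans (le_max_right _ _), k6.md⟩⟩
      exact mul_le_mul_of_nonneg_right hBB (abs_nonneg _)
    refine hft X R d (S (2 ^ n)) (2 ^ n) hX hR.1 hR.2 hd hG Nat.one_le_two_pow (hSnn _) ?_ ?_ c'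
    · intro α hα c''
      have hw : Function.Periodic (fun t => ((rho H (t + α) + d / R : ℝ) : ℂ)) (2 * π) := by
        intro t
        have := rho_per_o3 hH.per α (d / R) t
        simp only at this ⊢
        rw [this]
      have hγ : Function.Periodic (fun t => ga H α t + d / R * cos α) (2 * π) := ga_per_o3 hH.per α _
      have hM : ∀ t, ‖((rho H (t + α) + d / R : ℝ) : ℂ)‖ ≤ Mr := by
        intro t
        rw [Complex.norm_real]
        exact hMr _ _ hdR1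
      simp only [hS]
      refine sqa_oct_gen hw hγ hM Nat.one_le_two_pow ?_ c''
      intro j s hj c3
      obtain ⟨_, _, _, k4, k5, _, _⟩ := hcond α hα (d / R) hdR j s
      obtain ⟨a1, a2⟩ := hphase α hα j s hj _ k4 k5
      exact hoct _ _ a1 a2 X R (2 ^ n) hXX1 hR.1 hR.2 Nat.one_le_two_pow (hK.trans hmid) 1 (Or.inl rfl) c3
    · intro α hα c''
      have hw : Function.Periodic (fun _ : ℝ => ((1 : ℝ) : ℂ)) (2 * π) := fun t => rfl
      have hγ : Function.Periodic (fun t => ga H α t + d / R * cos α) (2 * π) := ga_per_o3 hH.per α _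
      have hM : ∀ t : ℝ, ‖(fun _ : ℝ => ((1 : ℝ) : ℂ)) t‖ ≤ Mr := by
        intro t
        simpa using hMr1
      simp only [hS]
      refine sqa_oct_gen hw hγ hM Nat.one_le_two_pow ?_ c''
      intro j s hj c3
      obtain ⟨_, _, _, _, _, k6, k7⟩ := hcond α hα (d / R) hdR j s
      obtain ⟨a1, a2⟩ := hphase α hα j s hj _ k6 k7
      exact hoct _ _ a1 a2 X R (2 ^ n) hXX1 hR.1 hR.2 Nat.one_le_two_pow (hK.trans hmid) 2 (Or.inr rfl) c3)
    X ⟨le_rfl, by linarith⟩ c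
  refine hmain.trans ?_
  have h5 : X ^ (1 - 158 / 421 : ℝ) ≤ X ^ (263 / 421 + ε) := rpow_le_rpow_of_exponent_le hX (by linarith)
  have h6 : C1 * X ^ (1 - 158 / 421 : ℝ) ≤ |C1| * X ^ (263 / 421 + ε) := by
    refine (mul_le_mul_of_nonneg_right (le_abs_self C1) (by positivity)).trans ?_
    exact mul_le_mul_of_nonneg_left h5 hc1
  have h7 : 0 ≤ |C4| * X ^ (263 / 421 + ε) := by positivity
  calc C1 * X ^ (1 - 158 / 421 : ℝ) + ∑ n ∈ Finset.range n1, B n ≤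
      |C1| * X ^ (263 / 421 + ε) + (8 / ε + 1) * (C2 * (8 * C3 + 16 * Mr + 1)) * X ^ (263 / 421 + ε) := add_le_add h6 hsum
    _ ≤ _ := by linarith

/-- **Every oval with support function of class `C⁷`, every centre, every radius: exponent `263/421`.** -/
theorem main7 {H : ℝ → ℝ} (hH : IsSupp H) (h7 : ContDiff ℝ 7 H) {ε : ℝ} (hε : 0 < ε) :
    ∃ C : ℝ, ∀ R : ℝ, 1 ≤ R → ∀ c : ℝ × ℝ, |cntc H c R - area H * R ^ 2| ≤ C * R ^ (263 / 421 + ε) := by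
  rcases le_total ε (1 / 1000) with h | h
  · exact main92 hH h7 hε h
  · obtain ⟨C, hC⟩ := main92 hH h7 (ε := 1 / 1000) (by norm_num) le_rfl
    refine ⟨|C|, fun R hR c => (hC R hR c).trans ?_⟩
    have h1 : R ^ (263 / 421 + 1 / 1000 : ℝ) ≤ R ^ (263 / 421 + ε) :=
      rpow_le_rpow_of_exponent_le hR (by linarith)
    refine (mul_le_mul_of_nonneg_right (le_abs_self C) (by positivity)).trans ?_
    exact mul_le_mul_of_nonneg_left h1 (abs_nonneg _)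

end Pool.Agent.Helper92.OV6
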